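import Pool.Agent.WarD.Stmts2
import Pool.Agent.War5.QD

/-!
# Simultaneous Waring decompositions (MP_db021c_ag), degree 4, few forms: module QZ   (helper46)

Quadrics which are double at the points of `P` and simple at the other points vanish.
-/

set_option autoImplicit false

open Module MvPolynomial
open Pool.Agent.War Pool.Agent.WarS Pool.Agent.War5

namespace Pool.Agent.WarD

namespace QZaux

theorem NN_two (n : ℕ) : 2 * NN n 2 = (n + 2) * (n + 1) := by
  induction n with
  | zero => simp [NN]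
  | succ n ih =>
    rw [NN_succ n 1, NN_right_one, mul_add, ih]
    ring

/-- the kernel of the double points -/
theorem kd (n p : ℕ) : ∃ k, 2 * k ≤ (n + 2 - p) * (n + 1 - p) ∧ KD n 2 p k := by
  rcases Nat.eq_zero_or_pos p with rfl | hp
  · refine ⟨NN n 2, le_of_eq (NN_two n), fun i => i.elim0, ?_⟩
    exact (Submodule.finrank_le _).trans (finrank_Pol_le n 2)
  · refine ⟨_, ?_, x_QD n p hp⟩
    split_ifs with h
    · exact Nat.zero_le _
    · exact Nat.mul_div_le _ 2

/-- the double and the simple points -/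
theorem both (n p k : ℕ) (h : (n + 2 - p) * (n + 1 - p) ≤ 2 * k) :
    ∃ (z : Fin p → Fin n → ℂ) (y : Fin k → Fin n → ℂ),
      finrank ℂ ↥(Dbl n 2 Finset.univ z ⊓ ⨅ i, LinearMap.ker (ev n 2 (y i))) ≤ 0 := by
  obtain ⟨c, hc, z, hz⟩ := kd n p
  obtain ⟨y, hy⟩ := red (Y := Fin n → ℂ) (fun y => ev n 2 y) (Dbl n 2 Finset.univ z) ⊥ (by
    intro w _ hw
    by_contra hc
    push Not at hc
    apply hw
    rw [Submodule.mem_bot]
    apply Subtype.ext
    apply MvPolynomial.funext
    intro x
    have := hc x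
    rw [ev_apply] at this
    rw [this]
    simp) k
  refine ⟨z, y, hy.trans ?_⟩
  rw [finrank_bot]
  refine max_le ?_ (Nat.zero_le _)
  omega

end QZaux

open QZaux in
theorem x_QZ : S_QZ := by
  classical
  intro n I _ P hn hP
  obtain ⟨z, y, hzy⟩ := both n P.card (Fintype.card I - P.card) hP
  have e1 : Fintype.card {i // i ∈ P} = P.card := Fintype.card_coe P
  have e2 : Fintype.card {i // ¬ i ∈ P} = Fintype.card I - P.card := by
    rw [Fintype.card_subtype_compl, e1]
  let a : {i // i ∈ P} ≃ Fin P.card := Fintype.equivFinOfCardEq e1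
  let b : {i // ¬ i ∈ P} ≃ Fin (Fintype.card I - P.card) := Fintype.equivFinOfCardEq e2
  let x₀ : I → Fin n → ℂ := fun i => if hi : i ∈ P then z (a ⟨i, hi⟩) else y (b ⟨i, hi⟩)
  have hle : Dbl n 2 P x₀ ≤ Dbl n 2 Finset.univ z ⊓ ⨅ i, LinearMap.ker (ev n 2 (y i)) := by
    intro f hf
    obtain ⟨f1, f2⟩ := mem_Dbl.1 hf
    rw [Submodule.mem_inf, Submodule.mem_iInf, mem_Dbl]
    have key : ∀ i : Fin P.card, x₀ (a.symm i).1 = z i := by
      intro i
      simp only [x₀]
      rw [dif_pos (a.symm i).2]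
      simp
    refine ⟨⟨fun i => ?_, fun i _ k => ?_⟩, fun i => ?_⟩
    · have := f1 (a.symm i).1
      rwa [key] at this
    · have := f2 (a.symm i).1 (a.symm i).2 k
      rwa [key] at this
    · rw [LinearMap.mem_ker, ev_apply]
      have := f1 (b.symm i).1
      simp only [x₀] at this
      rw [dif_neg (b.symm i).2] at this
      simpa using this
  refine (PK_Dbl n 2 P).gen_bot (x₀ := x₀) ?_
  rw [← Submodule.finrank_eq_zero (R := ℂ)]
  have h := (Submodule.finrank_mono hle).trans hzy
  omega

end Pool.Agent.WarD
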