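import Pool.Agent.WarD.Stmts
import Pool.Agent.WarS.RES

/-!
# Simultaneous Waring decompositions (MP_db021c_ag): decoupled Horace step, residual lemma
-/

set_option autoImplicit false

open Module MvPolynomial
open Pool.Agent.War Pool.Agent.WarS

namespace Pool.Agent.WarD.REBaux

open Pool.Agent.WarS.RESm

/-- the parameter space -/
abbrev Pr (n r : ℕ) (I U Y : Type) : Type :=
  ((I → Fin (n + 1) → ℂ) × (I → Fin (r + 1) → ℂ)) × (U → Fin n → ℂ) ×
    (U → Fin (r + 1) → ℂ) × (Y → Fin n → ℂ) × (Y → Fin (r + 1) → ℂ)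

section Maps

variable {n r : ℕ} {I U Y : Type}

/-- a point off the hyperplane -/
def Mw (i : I) : Pr n r I U Y →ₗ[ℂ] (Fin (n + 1) → ℂ) where
  toFun x := x.1.1 i
  map_add' _ _ := rfl
  map_smul' _ _ := rfl

/-- a coordinate of its vector -/
def Mb (i : I) (j : Fin (r + 1)) : Pr n r I U Y →ₗ[ℂ] ℂ where
  toFun x := x.1.2 i j
  map_add' _ _ := rfl
  map_smul' _ _ := rfl

/-- a point on the hyperplane -/
def Mz (i : U) : Pr n r I U Y →ₗ[ℂ] (Fin n → ℂ) where
  toFun x := x.2.1 i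
  map_add' _ _ := rfl
  map_smul' _ _ := rfl

/-- a coordinate of its vector -/
def Ma (i : U) (j : Fin (r + 1)) : Pr n r I U Y →ₗ[ℂ] ℂ where
  toFun x := x.2.2.1 i j
  map_add' _ _ := rfl
  map_smul' _ _ := rfl

/-- a point near the hyperplane -/
def My (i : Y) : Pr n r I U Y →ₗ[ℂ] (Fin n → ℂ) where
  toFun x := x.2.2.2.1 i
  map_add' _ _ := rfl
  map_smul' _ _ := rfl

/-- a coordinate of its vector -/
def Mα (i : Y) (j : Fin (r + 1)) : Pr n r I U Y →ₗ[ℂ] ℂ where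
  toFun x := x.2.2.2.2 i j
  map_add' _ _ := rfl
  map_smul' _ _ := rfl

end Maps

/-- a combination of the derivatives of the forms -/
noncomputable def Sv (m e : ℕ) {r : ℕ} (c : Fin (r + 1) → ℂ) (k : Fin m) (z : Fin m → ℂ) :
    (Fin (r + 1) → Pol m e) →ₗ[ℂ] ℂ :=
  ∑ j, c j • Dv m e j k z

theorem Sv_apply {m e r : ℕ} (c : Fin (r + 1) → ℂ) (k : Fin m) (z : Fin m → ℂ)
    (g : Fin (r + 1) → Pol m e) :
    Sv m e c k z g = ∑ j, c j * eval z (pderiv k (g j : MvPolynomial (Fin m) ℂ)) := by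
  simp only [Sv, LinearMap.sum_apply, LinearMap.smul_apply, Dv_apply, smul_eq_mul]

theorem PK_Sv {X : Type*} [AddCommGroup X] [Module ℂ X] {m e r : ℕ} (k : Fin m)
    (L : X →ₗ[ℂ] (Fin m → ℂ)) (c : Fin (r + 1) → (X →ₗ[ℂ] ℂ)) :
    PK fun x : X => LinearMap.ker (Sv m e (fun j => c j x) k (L x)) := by
  refine PK.one (φ := fun x : X => Sv m e (fun j => c j x) k (L x)) fun g => ?_
  simp only [Sv_apply]
  exact LP.sum _ fun j _ => (LP.linear (c j)).mul ((LP_eval _).comp_linear L)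

section ZZ

variable {n r : ℕ} {I U Y : Type}

/-- the space of solutions of the residual conditions -/
noncomputable def ZB (d : ℕ) (x : Pr n r I U Y) : Submodule ℂ (Fin (r + 1) → Pol (n + 1) (d + 1)) :=
  (((⨅ q : I × Fin (r + 1), LinearMap.ker (Ev (n + 1) (d + 1) q.2 (Mw q.1 x))) ⊓
    (⨅ q : I × Fin (n + 1),
      LinearMap.ker (Sv (n + 1) (d + 1) (fun j => Mb q.1 j x) q.2 (Mw q.1 x)))) ⊓
  (⨅ i : U, LinearMap.ker (OmC1 n (d + 1) (Mz i x, fun j : Fin (r + 1) => Ma i j x)))) ⊓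
  ((⨅ q : Y × Fin (r + 1), LinearMap.ker (Ev (n + 1) (d + 1) q.2 (hpL n (My q.1 x)))) ⊓
    (⨅ q : Y × Fin n,
      LinearMap.ker (Sv (n + 1) (d + 1) (fun j => Mα q.1 j x) q.2.succ (hpL n (My q.1 x)))))

theorem mem_ZB {d : ℕ} {x : Pr n r I U Y} {g : Fin (r + 1) → Pol (n + 1) (d + 1)} :
    g ∈ ZB d x ↔
      ((((∀ i j, eval (x.1.1 i) (g j : MvPolynomial (Fin (n + 1)) ℂ) = 0) ∧
        (∀ i k, ∑ j, x.1.2 i j *
          eval (x.1.1 i) (pderiv k (g j : MvPolynomial (Fin (n + 1)) ℂ)) = 0)) ∧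
        (∀ i, ∑ j, x.2.2.1 i j *
          eval (hp (x.2.1 i)) (g j : MvPolynomial (Fin (n + 1)) ℂ) = 0)) ∧
        (∀ i j, eval (hp (x.2.2.2.1 i)) (g j : MvPolynomial (Fin (n + 1)) ℂ) = 0) ∧
        (∀ i (k : Fin n), ∑ j, x.2.2.2.2 i j *
          eval (hp (x.2.2.2.1 i)) (pderiv k.succ (g j : MvPolynomial (Fin (n + 1)) ℂ)) = 0)) := by
  simp only [ZB, Submodule.mem_inf, Submodule.mem_iInf, LinearMap.mem_ker, Ev_apply, Sv_apply,
    OmC1_apply]
  constructor
  · rintro ⟨⟨⟨h1, h2⟩, h3⟩, h4, h5⟩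
    exact ⟨⟨⟨fun i j => h1 (i, j), fun i k => h2 (i, k)⟩, h3⟩, fun i j => h4 (i, j),
      fun i k => h5 (i, k)⟩
  · rintro ⟨⟨⟨h1, h2⟩, h3⟩, h4, h5⟩
    exact ⟨⟨⟨fun q => h1 q.1 q.2, fun q => h2 q.1 q.2⟩, h3⟩, fun q => h4 q.1 q.2,
      fun q => h5 q.1 q.2⟩

theorem PK_ZB [Finite I] [Finite U] [Finite Y] (d : ℕ) :
    PK (K := ℂ) fun x : Pr n r I U Y => ZB d x := by
  refine PK.inf (PK.inf (PK.inf ?_ ?_) ?_) (PK.inf ?_ ?_)
  · exact PK.iInf fun q => PK_Ev q.2 (Mw q.1)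
  · exact PK.iInf fun q => PK_Sv q.2 (Mw q.1) fun j => Mb q.1 j
  · refine PK.iInf fun i => PK.one (φ := fun x : Pr n r I U Y =>
      OmC1 n (d + 1) (Mz i x, fun j : Fin (r + 1) => Ma i j x)) fun g => ?_
    simp only [OmC1_apply, eval_hp]
    exact LP.sum _ fun j _ => (LP.linear (Ma i j)).mul ((LP_eval _).comp_linear (Mz i))
  · exact PK.iInf fun q => PK_Ev q.2 ((hpL n).comp (My q.1))
  · exact PK.iInf fun q => PK_Sv q.2.succ ((hpL n).comp (My q.1)) fun j => Mα q.1 j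

end ZZ

end Pool.Agent.WarD.REBaux

namespace Pool.Agent.WarD

open REBaux

theorem x_REB : S_REB := by
  classical
  intro n d r I U Y _ _ _ π τ v hn hbot hfin hsum
  let P : Fin (r + 1) → Finset I := fun j => Finset.univ.filter fun i => π i = j
  let R : Fin (r + 1) → Finset Y := fun j => Finset.univ.filter fun i => τ i = j
  -- the points w and y
  have gA := Gen.forall hfin
  have gB := (Gen.forall hbot).comp
      (LinearMap.fst ℂ (I → Fin (n + 1) → ℂ) (Y → Fin n → ℂ)) Prod.fst_surjective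
  have gD := (gen_off (n := n) (I := I)).comp
      (LinearMap.fst ℂ (I → Fin (n + 1) → ℂ) (Y → Fin n → ℂ)) Prod.fst_surjective
  obtain ⟨⟨w, y⟩, ⟨hA, hB⟩, hD⟩ := ((gA.and gB).and gD).exists
  simp only [LinearMap.fst_apply] at hA hB hD
  have hker : ∀ (j : Fin (r + 1)) (f : Pol (n + 1) (d + 1)), f ∈ Dbl (n + 1) (d + 1) (P j) w →
      (∀ p : Fin n → ℂ, eval p (res n (f : MvPolynomial (Fin (n + 1)) ℂ)) = 0) → f = 0 := by
    intro j f hf hp
    have e2 : res n (f : MvPolynomial (Fin (n + 1)) ℂ) = 0 :=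
      MvPolynomial.funext fun p => by rw [hp, map_zero]
    obtain ⟨g, hg⟩ := exists_mulXC1 e2
    have e3 : g ∈ Dbl (n + 1) d (P j) w := Dbl_of_mulXC1 hD (by rw [← hg]; exact hf)
    have e4 : Dbl (n + 1) d (P j) w = ⊥ := hB j
    rw [e4, Submodule.mem_bot] at e3
    rw [hg, e3, map_zero]
  set W : Submodule ℂ (Fin (r + 1) → Pol (n + 1) (d + 1)) := Submodule.pi Set.univ
    fun j => DbS n (d + 1) (P j) w (R j) y with hW
  have hWd : finrank ℂ W ≤ Fintype.card U :=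
    (finrank_pi_leC1 _).trans ((Finset.sum_le_sum fun j _ => hA j).trans hsum)
  -- the points (z, a)
  obtain ⟨yy, hyy⟩ := red (OmC1 n (d + 1)) W ⊥ (by
    intro g hg hg0
    by_contra hcon
    push Not at hcon
    apply hg0
    rw [Submodule.mem_bot]
    funext j
    refine hker j (g j) (hg j trivial).1 fun p => ?_
    have := hcon (p, Pi.single j 1)
    rw [OmC1_apply] at this
    simpa [Pi.single_apply, eval_hp] using this) (Fintype.card U)
  rw [finrank_bot] at hyy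
  have hyy' : W ⊓ ⨅ i, LinearMap.ker (OmC1 n (d + 1) (yy i)) = ⊥ :=
    Submodule.finrank_eq_zero.1 (by omega)
  let e : U ≃ Fin (Fintype.card U) := Fintype.equivFin U
  let x₀ : Pr n r I U Y := ((w, fun i => Pi.single (π i) 1), fun i => (yy (e i)).1,
    fun i => (yy (e i)).2, y, fun i => Pi.single (τ i) 1)
  have h0 : ZB d x₀ = ⊥ := by
    rw [eq_bot_iff, ← hyy']
    intro g hg
    obtain ⟨⟨⟨k1, k2⟩, k3⟩, k4, k5⟩ := mem_ZB.1 hg
    refine ⟨fun j _ => ⟨?_, ?_⟩, ?_⟩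
    · refine mem_Dbl.2 ⟨fun i => k1 i j, fun i hi k => ?_⟩
      have hij : π i = j := (Finset.mem_filter.1 hi).2
      have h := k2 i k
      rw [Finset.sum_eq_single j] at h
      · simp only [x₀, hij, Pi.single_eq_same, one_mul] at h
        exact h
      · intro j' _ hj'
        simp only [x₀, hij]
        rw [Pi.single_eq_of_ne hj', zero_mul]
      · intro h'
        exact absurd (Finset.mem_univ _) h'
    · rw [SetLike.mem_coe, Submodule.mem_comap]
      refine mem_Dbl.2 ⟨fun i => ?_, fun i hi k => ?_⟩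
      · have := k4 i j
        rwa [eval_hp] at this
      · have hij : τ i = j := (Finset.mem_filter.1 hi).2
        have h := k5 i k
        rw [Finset.sum_eq_single j] at h
        · simp only [x₀, hij, Pi.single_eq_same, one_mul] at h
          rwa [eval_hp_pderiv] at h
        · intro j' _ hj'
          simp only [x₀, hij]
          rw [Pi.single_eq_of_ne hj', zero_mul]
        · intro h'
          exact absurd (Finset.mem_univ _) h'
    · rw [SetLike.mem_coe, Submodule.mem_iInf]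
      intro i
      rw [LinearMap.mem_ker, OmC1_apply]
      have h := k3 (e.symm i)
      simp only [x₀, Equiv.apply_symm_apply] at h
      exact h
  refine ((PK_ZB d).gen_bot h0).mono fun x hx => ?_
  intro g hg h1 h2 h3 h4 h5 j
  have hm : (fun j => (⟨g j, mem_Pol.2 (hg j)⟩ : Pol (n + 1) (d + 1))) ∈ ZB d x :=
    mem_ZB.2 ⟨⟨⟨h1, h2⟩, h3⟩, h4, h5⟩
  rw [hx, Submodule.mem_bot] at hm
  exact congrArg Subtype.val (congrFun hm j)

end Pool.Agent.WarD
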