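import Pool.Agent.WarD.Stmts
import Pool.Agent.War5.HD5

/-!
# Simultaneous Waring decompositions (MP_db021c_ag), degree 4, few forms: the module SDB   (helper80)

One form: general double and simple points in the space, points on the hyperplane which are double
along the hyperplane, and general simple points of the hyperplane.
-/

set_option autoImplicit false

open Module MvPolynomial
open Pool.Agent.War Pool.Agent.WarS Pool.Agent.War5

namespace Pool.Agent.WarD

namespace SDBaux

theorem PK_DbS (n d : ℕ) {I Y : Type} [Finite I] [Finite Y] (P : Finset I) (R : Finset Y) :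
    PK fun x : (I → Fin (n + 1) → ℂ) × (Y → Fin n → ℂ) => DbS n d P x.1 R x.2 := by
  have h1 := PK.comp (K := ℂ) (Y := (I → Fin (n + 1) → ℂ) × (Y → Fin n → ℂ))
    (PK_Dbl (n + 1) d P) (LinearMap.fst ℂ (I → Fin (n + 1) → ℂ) (Y → Fin n → ℂ))
  have h2 := PK.comp (K := ℂ) (Y := (I → Fin (n + 1) → ℂ) × (Y → Fin n → ℂ))
    (PK_Dbl n d R) (LinearMap.snd ℂ (I → Fin (n + 1) → ℂ) (Y → Fin n → ℂ))
  exact h1.inf (h2.comap (resL n d))

/-- no element vanishes on the hyperplane -/
theorem inj {n d : ℕ} {I : Type} {P : Finset I} {w : I → Fin (n + 1) → ℂ}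
    (hw : ∀ i, w i 0 ≠ 0) (h0 : Dbl (n + 1) d P w = ⊥) {f : Pol (n + 1) (d + 1)}
    (hf : f ∈ Dbl (n + 1) (d + 1) P w) (h : ∀ y : Fin n → ℂ, ev (n + 1) (d + 1) (hp y) f = 0) :
    f = 0 := by
  have h1 : resL n (d + 1) f = 0 := by
    apply Subtype.ext
    rw [resL_coe]
    refine MvPolynomial.funext fun y => ?_
    have := h y
    rw [ev_apply, eval_hp] at this
    simpa using this
  have h2 : f ∈ LinearMap.ker (resL n (d + 1)) := LinearMap.mem_ker.2 h1
  rw [ker_resL] at h2
  obtain ⟨g, rfl⟩ := h2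
  have hg : g ∈ Dbl (n + 1) d P w := by
    refine ⟨fun i => ?_, fun i hi k => ?_⟩
    · have h4 := hf.1 i
      rw [eval_mulX] at h4
      exact (mul_eq_zero.1 h4).resolve_left (hw i)
    · exact (off_hyp (hw i) (hf.1 i) (hf.2 i hi)).2 k
  rw [h0, Submodule.mem_bot] at hg
  rw [hg, map_zero]

end SDBaux

open SDBaux

theorem x_SDB : S_SDB := by
  classical
  intro n d u I Y _ _ P R hn hu hG hA h0
  have g1 := x_HD5 n d u R.card I P hn hu hG hA
  have g2 := h0.comp (LinearMap.fst ℂ (I → Fin (n + 1) → ℂ) (Fin R.card → Fin n → ℂ))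
    LinearMap.fst_surjective
  have g3 := (gen_off (n := n) (I := I)).comp
    (LinearMap.fst ℂ (I → Fin (n + 1) → ℂ) (Fin R.card → Fin n → ℂ)) LinearMap.fst_surjective
  obtain ⟨⟨w, z⟩, ⟨hwz, hw0⟩, hw⟩ := ((g1.and g2).and g3).exists
  have hwz' : finrank ℂ (DblH n (d + 1) P w z) ≤
      NN (n + 1) (d + 1) - ((n + 1) * P.card + Fintype.card I + (n + 1) * R.card) := hwz
  have hw0' : Dbl (n + 1) d P w = ⊥ := hw0
  have hw' : ∀ i, w i 0 ≠ 0 := hw
  obtain ⟨v, hv⟩ := red (Y := Fin n → ℂ) (fun v => ev (n + 1) (d + 1) (hp v))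
    (DblH n (d + 1) P w z) ⊥ (by
      intro f hf1 hf
      by_contra hc
      push Not at hc
      apply hf
      rw [Submodule.mem_bot]
      exact inj hw' hw0' hf1.1 hc) (Fintype.card Y - R.card)
  rw [finrank_bot, Nat.max_zero] at hv
  have hRY : R.card ≤ Fintype.card Y := Finset.card_le_univ R
  have e1 : Fintype.card {i // i ∈ R} = Fintype.card (Fin R.card) := by
    rw [Fintype.card_coe, Fintype.card_fin]
  let e : {i // i ∈ R} ≃ Fin R.card := Fintype.equivOfCardEq e1
  have e2 : Fintype.card {i // ¬ i ∈ R} = Fintype.card Y - R.card := by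
    rw [Fintype.card_subtype_compl, Fintype.card_coe]
  let b : {i // ¬ i ∈ R} ≃ Fin (Fintype.card Y - R.card) := Fintype.equivFinOfCardEq e2
  let y₀ : Y → Fin n → ℂ := fun i => if hi : i ∈ R then z (e ⟨i, hi⟩) else v (b ⟨i, hi⟩)
  have key : ∀ j : Fin R.card, y₀ (e.symm j).1 = z j := by
    intro j
    simp only [y₀]
    rw [dif_pos (e.symm j).2]
    simp
  have key2 : ∀ j : Fin (Fintype.card Y - R.card), y₀ (b.symm j).1 = v j := by
    intro j
    simp only [y₀]
    rw [dif_neg (b.symm j).2]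
    simp
  have hle : DbS n (d + 1) P w R y₀ ≤
      DblH n (d + 1) P w z ⊓ ⨅ i, LinearMap.ker (ev (n + 1) (d + 1) (hp (v i))) := by
    rintro f ⟨hf1, hf2, hf3⟩
    refine ⟨⟨hf1, fun j => ?_, fun j _ k => ?_⟩, ?_⟩
    · have := hf2 (e.symm j).1
      rwa [key] at this
    · have := hf3 (e.symm j).1 (e.symm j).2 k
      rwa [key] at this
    · rw [SetLike.mem_coe, Submodule.mem_iInf]
      intro i
      rw [LinearMap.mem_ker, ev_apply, eval_hp]
      have := hf2 (b.symm i).1
      rwa [key2] at this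
  refine (PK_DbS n (d + 1) P R).gen_finrank (x₀ := (w, y₀))
    ((Submodule.finrank_mono hle).trans (hv.trans ?_))
  have h1 : (n + 1) * R.card = n * R.card + R.card := by ring
  omega

end Pool.Agent.WarD
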