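import Pool.Agent.WarD.Stmts2
import Pool.Agent.War5.AK
import Pool.Agent.War5.QD
import Pool.Agent.War5.CF

/-!
# Simultaneous Waring decompositions (MP_db021c_ag), degree 4, few forms: double points of quartics (Q4)
-/

set_option autoImplicit false

open Module MvPolynomial
open Pool.Agent.War Pool.Agent.WarS

namespace Pool.Agent.WarD

namespace Q4aux

theorem GG_of_A {n d p : ℕ} (h : SWaux.A n d p 0) : GG (n + 1) d p := by
  obtain ⟨w, y, h⟩ := h
  refine ⟨w, ?_⟩
  have h1 : SWaux.DS n d w y = Dbl (n + 1) d Finset.univ w := by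
    unfold SWaux.DS
    rw [iInf_of_empty, inf_top_eq]
  rw [h1] at h
  exact h

/-- the main inequality, at least `m + 1` points off the hyperplane -/
theorem ineq1 (m Q U a b : ℕ) (hN3 : 6 * b = (m + 1) * (m + 2) * (m + 3))
    (hN4 : 24 * a = m * (m + 1) * (m + 2) * (m + 3))
    (h1 : (m + 2) * (U + Q) ≤ a + b) (h2 : a ≤ (m + 1) * U + m) :
    U + (m + 1) * Q ≤ b := by
  have e1 : 4 * a = m * b := by
    have : 24 * a = 6 * (m * b) := by
      calc 24 * a = m * ((m + 1) * (m + 2) * (m + 3)) := by rw [hN4]; ring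
        _ = m * (6 * b) := by rw [hN3]
        _ = _ := by ring
    omega
  have e2 : m * m * (m + 2) * 4 ≤ (3 * m + 4) * b := by
    have : 6 * (m * m * (m + 2) * 4) ≤ 6 * ((3 * m + 4) * b) := by
      calc 6 * (m * m * (m + 2) * 4) = (24 * (m * m)) * (m + 2) := by ring
        _ ≤ ((3 * m + 4) * ((m + 1) * (m + 3))) * (m + 2) := by
            refine Nat.mul_le_mul_right _ ?_
            zify
            nlinarith [sq_nonneg ((m : ℤ) - 2), sq_nonneg ((m : ℤ) - 1), Int.natCast_nonneg m,
              mul_nonneg (Int.natCast_nonneg m) (sq_nonneg ((m : ℤ) - 2)),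
              mul_nonneg (Int.natCast_nonneg m) (sq_nonneg ((m : ℤ) - 1))]
        _ = (3 * m + 4) * ((m + 1) * (m + 2) * (m + 3)) := by ring
        _ = (3 * m + 4) * (6 * b) := by rw [hN3]
        _ = _ := by ring
    omega
  have h3 : (m + 1) * (m + 2) * (U + (m + 1) * Q) ≤ (m + 1) * (m + 2) * b := by
    have k1 : (m + 1) * ((m + 1) * ((m + 2) * (U + Q))) ≤ (m + 1) * ((m + 1) * (a + b)) :=
      Nat.mul_le_mul_left _ (Nat.mul_le_mul_left _ h1)
    have k2 : m * (m + 2) * a ≤ m * (m + 2) * ((m + 1) * U + m) := Nat.mul_le_mul_left _ h2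
    zify at *
    nlinarith
  exact Nat.le_of_mul_le_mul_left h3 (by positivity)

/-- the main inequality, at most `m` points off the hyperplane -/
theorem ineq2 (m Q U a b : ℕ) (hN3 : 6 * b = (m + 1) * (m + 2) * (m + 3))
    (hN4 : 24 * a = m * (m + 1) * (m + 2) * (m + 3)) (hQ : 1 ≤ Q) (hQm : Q ≤ m)
    (h2 : (m + 1) * U ≤ a) :
    (m + 2 - Q) * (m + 1 - Q) / 2 + U + (m + 1) * Q ≤ b := by
  have e1 : 4 * a = m * b := by
    have : 24 * a = 6 * (m * b) := by
      calc 24 * a = m * ((m + 1) * (m + 2) * (m + 3)) := by rw [hN4]; ring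
        _ = m * (6 * b) := by rw [hN3]
        _ = _ := by ring
    omega
  obtain ⟨t, ht⟩ : ∃ t, m = Q + t := ⟨m - Q, by omega⟩
  have k1 : (m + 2 - Q) * (m + 1 - Q) = (t + 2) * (t + 1) := by
    rw [show m + 2 - Q = t + 2 by omega, show m + 1 - Q = t + 1 by omega]
  rw [k1]
  -- `(t+2)(t+1)/2 + (m+1) Q ≤ m² + m + 1`
  have k2 : (t + 2) * (t + 1) / 2 + (m + 1) * Q ≤ m * m + m + 1 := by
    have : (t + 2) * (t + 1) + 2 * ((m + 1) * Q) ≤ 2 * (m * m + m + 1) := by
      rw [ht]
      obtain ⟨q, rfl⟩ : ∃ q, Q = q + 1 := ⟨Q - 1, by omega⟩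
      nlinarith [Nat.zero_le (t * t), Nat.zero_le (t * q), Nat.le_mul_self t]
    have h3 := Nat.div_mul_le_self ((t + 2) * (t + 1)) 2
    omega
  have k3 : 24 * U ≤ m * (m + 2) * (m + 3) := by
    refine Nat.le_of_mul_le_mul_left (c := m + 1) ?_ (by omega)
    calc (m + 1) * (24 * U) = 24 * ((m + 1) * U) := by ring
      _ ≤ 24 * a := Nat.mul_le_mul_left _ h2
      _ = _ := by rw [hN4]; ring
  have k4 : 24 * (m * m + m + 1) + m * (m + 2) * (m + 3) ≤ 4 * ((m + 1) * (m + 2) * (m + 3)) := by
    zify
    have hm : (0 : ℤ) ≤ m := Int.natCast_nonneg m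
    nlinarith [mul_nonneg hm (sq_nonneg ((m : ℤ) - 1)), mul_nonneg hm hm,
      mul_nonneg hm (mul_nonneg hm hm)]
  rw [← hN3] at k4
  omega

end Q4aux

open Q4aux in
theorem x_Q4 : S_Q4 := by
  intro n p hn
  induction n, hn using Nat.le_induction generalizing p with
  | base =>
    intro hp
    have h5 : NN 1 4 = 5 := NN_one 4
    rw [h5] at hp
    exact GG_one 4 p (by omega)
  | succ n hn ih =>
    intro hp
    have hs : NN (n + 1) 4 = NN n 4 + NN (n + 1) 3 := NN_succ n 3
    obtain ⟨-, c3, -, -, -⟩ := War5.x_CF (n + 1)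
    obtain ⟨-, c3', c4, -, -⟩ := War5.x_CF n
    -- the number of points on the hyperplane
    obtain ⟨U, Q, rfl, hU, hQU⟩ : ∃ U Q, p = U + Q ∧ (n + 2) * U ≤ NN n 4 ∧
        (1 ≤ Q → NN n 4 ≤ (n + 2) * U + (n + 1)) := by
      refine ⟨min p (NN n 4 / (n + 2)), p - min p (NN n 4 / (n + 2)), by omega, ?_, fun h => ?_⟩
      · exact (Nat.mul_le_mul_left _ (min_le_right _ _)).trans (Nat.mul_div_le _ _)
      · have h1 : min p (NN n 4 / (n + 2)) = NN n 4 / (n + 2) := by omega
        rw [h1]
        have h2 := Nat.div_add_mod (NN n 4) (n + 2)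
        have h3 := Nat.mod_lt (NN n 4) (show 0 < n + 2 by omega)
        omega
    have hA := ih U hU
    have hb : SWaux.A n 3 Q U := by
      rcases Nat.eq_zero_or_pos Q with rfl | hQ
      · refine SWaux.A_zero ?_
        have e1 : 4 * NN n 4 = (n + 4) * NN n 3 := by
          have : 24 * NN n 4 = 6 * ((n + 4) * NN n 3) := by
            calc 24 * NN n 4 = (n + 4) * ((n + 1) * (n + 2) * (n + 3)) := by rw [c4]; ring
              _ = (n + 4) * (6 * NN n 3) := by rw [c3']
              _ = _ := by ring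
          omega
        refine Nat.le_of_mul_le_mul_left (c := 4 * (n + 2)) ?_ (by omega)
        calc 4 * (n + 2) * U = 4 * ((n + 2) * U) := by ring
          _ ≤ 4 * NN n 4 := Nat.mul_le_mul_left _ hU
          _ = (n + 4) * NN n 3 := e1
          _ ≤ 4 * (n + 2) * NN n 3 := Nat.mul_le_mul_right _ (by omega)
      · have hQ2 := hQU hQ
        have c3m : 6 * NN (n + 1) 3 = (n + 1 + 1) * (n + 1 + 2) * (n + 1 + 3) := c3
        have c4m : 24 * NN n 4 = (n + 1) * (n + 1 + 1) * (n + 1 + 2) * (n + 1 + 3) := by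
          rw [c4]
        have hkey : (if n + 1 + 1 ≤ Q then 0 else (n + 1 + 2 - Q) * (n + 1 + 1 - Q) / 2) + U +
            (n + 2) * Q ≤ NN (n + 1) 3 := by
          split_ifs with hif
          · have := ineq1 (n + 1) Q U (NN n 4) (NN (n + 1) 3) c3m c4m
              (by rw [← hs]; exact hp) hQ2
            rw [zero_add]
            exact this
          · exact ineq2 (n + 1) Q U (NN n 4) (NN (n + 1) 3) c3m c4m hQ (by omega) hU
        have hcub : GG (n + 1) 3 Q := by
          refine WarM.CUBIC (n + 1) Q (Or.inl ?_)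
          rcases Nat.lt_or_ge n 3 with h3 | h3
          · obtain rfl | rfl : n = 1 ∨ n = 2 := by omega
            · have a1 : NN 1 4 = 5 := NN_one 4
              have a2 : NN (1 + 1) 3 = 10 := by omega
              rw [a2]
              rw [hs, a1, a2] at hp
              rw [a1] at hU hQ2
              omega
            · have a1 : NN 2 4 = 15 := by omega
              have a2 : NN (2 + 1) 3 = 20 := by omega
              rw [a2]
              rw [hs, a1, a2] at hp
              rw [a1] at hU hQ2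
              omega
          · have hU2 : n + 2 ≤ U := by
              by_contra hc
              have hc' : U ≤ n + 1 := by omega
              have h1 : NN n 4 ≤ (n + 2) * (n + 1) + (n + 1) :=
                hQ2.trans (Nat.add_le_add_right (Nat.mul_le_mul_left _ hc') _)
              have h2 : (n + 1) * (24 * (n + 3)) < (n + 1) * ((n + 2) * (n + 3) * (n + 4)) := by
                refine Nat.mul_lt_mul_of_pos_left ?_ (by omega)
                calc 24 * (n + 3) < (n + 2) * (n + 4) * (n + 3) := by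
                      refine Nat.mul_lt_mul_of_pos_right ?_ (by omega)
                      nlinarith
                  _ = _ := by ring
              have h3 : 24 * NN n 4 = (n + 1) * ((n + 2) * (n + 3) * (n + 4)) := by
                rw [c4]; ring
              have h4 : 24 * ((n + 2) * (n + 1) + (n + 1)) = (n + 1) * (24 * (n + 3)) := by ring
              omega
            calc (n + 1 + 1) * (Q + 1) = (n + 2) * Q + (n + 2) := by ring
              _ ≤ (n + 2) * Q + U := Nat.add_le_add_left hU2 _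
              _ ≤ NN (n + 1) 3 := by omega
        exact War5.x_AK n 2 Q U _ hcub (War5.x_QD (n + 1) Q hQ) hkey
    exact GG_of_A (SWaux.A_step hA hb (by
      rw [add_zero]
      exact (Nat.mul_le_mul_right _ (by omega)).trans hU))

end Pool.Agent.WarD
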