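import Pool.Agent.WarD.FEWB
import Pool.Agent.WarD.Q4
import Pool.Agent.WarM.ONE
import Pool.Agent.War5.AK
import Pool.Agent.War5.HD5
import Pool.Agent.WarS.RES
import Pool.Agent.WarS.SG
import Pool.Agent.WarS.TRA
import Pool.Agent.WarS.DH

/-!
# Simultaneous Waring decompositions (MP_db021c_ag), degree 4, few forms: two special cases   (helper54)

`(n, s) = (5, 2)` and `(6, 6)` (projective dimension `n`), by the scheme of War5.
-/

set_option autoImplicit false

open Module MvPolynomial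
open Pool.Agent.War Pool.Agent.WarS Pool.Agent.War5

namespace Pool.Agent.WarD

namespace SPaux

open WarS.RESm in
/-- the residual lemma (as x_RES5, with a general hypothesis in degree `d`) -/
theorem RES5G (hSG : S_SG) (hHD5 : S_HD5) (n d r u v y : ℕ) (I : Type) [Fintype I]
    (π : I → Fin (r + 1)) (hn : 1 ≤ n)
    (hGA : ∃ u' ≤ fib π 0, GG n (d + 1) (u' + y) ∧ SWaux.A n d (fib π 0 - u') u')
    (hGB : ∀ j, Gen ℂ fun w : I → Fin (n + 1) → ℂ =>
      Dbl (n + 1) d (Finset.univ.filter fun i => π i = j) w = ⊥)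
    (hG1 : ∀ j, GG (n + 1) (d + 1) (fib π j))
    (h0 : (n + 1) * fib π 0 + Fintype.card I + (n + 1) * y + u ≤ NN (n + 1) (d + 1))
    (hj : ∀ j, (n + 1) * fib π j + Fintype.card I ≤ NN (n + 1) (d + 1))
    (hT : (r + 1) * NN (n + 1) (d + 1) ≤ (n + r + 2) * Fintype.card I + (n + 1) * y + u + v) :
    Gen ℂ fun x : (I → Fin (n + 1) → ℂ) × (Fin u → Fin n → ℂ) × (Fin v → Fin n → ℂ) ×
      (Fin v → Fin (r + 1) → ℂ) × (Fin y → Fin n → ℂ) =>
    ResZ d π x.1 x.2.1 x.2.2.1 x.2.2.2.1 x.2.2.2.2 := by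
  classical
  let P : Fin (r + 1) → Finset I := fun j => Finset.univ.filter fun i => π i = j
  have hP : ∀ j, (P j).card = fib π j := fun j => rfl
  -- the points w and z0
  obtain ⟨u', hu', hGu, hAu⟩ := hGA
  have gA := hHD5 n d u' y I (P 0) hn hu' hGu hAu
  have gB := (Gen.forall fun j : Fin (r + 1) =>
    hSG (n + 1) (d + 1) I (P j) (by omega) (hG1 j)).comp
      (LinearMap.fst ℂ (I → Fin (n + 1) → ℂ) (Fin y → Fin n → ℂ)) Prod.fst_surjective
  have gC := (Gen.forall fun j : Fin (r + 1) => hGB j).comp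
      (LinearMap.fst ℂ (I → Fin (n + 1) → ℂ) (Fin y → Fin n → ℂ)) Prod.fst_surjective
  have gD := (gen_off (n := n) (I := I)).comp
      (LinearMap.fst ℂ (I → Fin (n + 1) → ℂ) (Fin y → Fin n → ℂ)) Prod.fst_surjective
  obtain ⟨⟨w, z0⟩, ⟨⟨hA, hB1⟩, hC⟩, hD⟩ := (((gA.and gB).and gC).and gD).exists
  simp only [LinearMap.fst_apply] at hA hB1 hC hD
  have hC' : ∀ j, Dbl (n + 1) d (P j) w = ⊥ := hC
  have hker : ∀ (j : Fin (r + 1)) (f : Pol (n + 1) (d + 1)), f ∈ Dbl (n + 1) (d + 1) (P j) w →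
      (∀ p : Fin n → ℂ, eval p (res n (f : MvPolynomial (Fin (n + 1)) ℂ)) = 0) → f = 0 := by
    intro j f hf hp
    have e2 : res n (f : MvPolynomial (Fin (n + 1)) ℂ) = 0 :=
      MvPolynomial.funext fun p => by rw [hp, map_zero]
    obtain ⟨g, hg⟩ := exists_mulXC1 e2
    have e3 : g ∈ Dbl (n + 1) d (P j) w := Dbl_of_mulXC1 hD (by rw [← hg]; exact hf)
    rw [hC', Submodule.mem_bot] at e3
    rw [hg, e3, map_zero]
  -- the points z1
  obtain ⟨z1, hz1⟩ := red (fun z : Fin n → ℂ => ev (n + 1) (d + 1) (hp z))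
    (DblH n (d + 1) (P 0) w z0) ⊥ (by
      intro f hf hf0
      by_contra hcon
      push Not at hcon
      apply hf0
      rw [Submodule.mem_bot]
      refine hker 0 f hf.1 fun p => ?_
      have := hcon p
      rwa [ev_apply, eval_hp] at this) u
  rw [finrank_bot] at hz1
  set V0 := DblH n (d + 1) (P 0) w z0 ⊓ ⨅ i, LinearMap.ker (ev (n + 1) (d + 1) (hp (z1 i)))
    with hV0
  let V : Fin (r + 1) → Submodule ℂ (Pol (n + 1) (d + 1)) :=
    Fin.cons V0 fun j => Dbl (n + 1) (d + 1) (P j.succ) w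
  have hVD : ∀ j, V j ≤ Dbl (n + 1) (d + 1) (P j) w := by
    intro j
    refine Fin.cases ?_ (fun j => ?_) j
    · exact inf_le_left.trans inf_le_left
    · exact le_rfl
  let W : Submodule ℂ (Fin (r + 1) → Pol (n + 1) (d + 1)) := Submodule.pi Set.univ V
  have hW : finrank ℂ W ≤ v := by
    refine (finrank_pi_leC1 V).trans ?_
    rw [Fin.sum_univ_succ]
    have e1 : finrank ℂ (V 0) ≤ NN (n + 1) (d + 1) -
        ((n + 1) * fib π 0 + Fintype.card I + (n + 1) * y) - u := by
      have : finrank ℂ (V 0) = finrank ℂ V0 := rfl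
      rw [this]
      refine hz1.trans (max_le ?_ (Nat.zero_le _))
      exact Nat.sub_le_sub_right hA u
    have e2 : ∑ j : Fin r, finrank ℂ (V j.succ) ≤
        ∑ j : Fin r, (NN (n + 1) (d + 1) - ((n + 1) * fib π j.succ + Fintype.card I)) :=
      Finset.sum_le_sum fun j _ => hB1 j.succ
    refine (Nat.add_le_add e1 e2).trans ?_
    refine count (F := ∑ j : Fin r, fib π j.succ) h0 ?_ ?_ hT
    · have e3 : ∀ j : Fin r, NN (n + 1) (d + 1) - ((n + 1) * fib π j.succ + Fintype.card I) +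
          ((n + 1) * fib π j.succ + Fintype.card I) = NN (n + 1) (d + 1) := fun j =>
        Nat.sub_add_cancel (hj j.succ)
      have e4 := Finset.sum_congr (rfl : (Finset.univ : Finset (Fin r)) = Finset.univ)
        fun j _ => e3 j
      rw [Finset.sum_add_distrib, Finset.sum_add_distrib, ← Finset.mul_sum, Finset.sum_const,
        Finset.sum_const, Finset.card_univ, Fintype.card_fin, smul_eq_mul, smul_eq_mul] at e4
      exact e4
    · rw [← sum_fib π, Fin.sum_univ_succ]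
  -- the points (z2, a)
  obtain ⟨yy, hyy⟩ := red (OmC1 n (d + 1)) W ⊥ (by
    intro g hg hg0
    by_contra hcon
    push Not at hcon
    apply hg0
    rw [Submodule.mem_bot]
    funext j
    refine hker j (g j) (hVD j (hg j trivial)) fun p => ?_
    have := hcon (p, Pi.single j 1)
    rw [OmC1_apply] at this
    simpa [Pi.single_apply, eval_hp] using this) v
  rw [finrank_bot] at hyy
  have hyy' : W ⊓ ⨅ i, LinearMap.ker (OmC1 n (d + 1) (yy i)) = ⊥ :=
    Submodule.finrank_eq_zero.1 (by omega)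
  -- conclusion
  have hbot : ZZ d π ((w, z1, fun i => (yy i).1, fun i => (yy i).2, z0) :
      Pm n r u v y I) = ⊥ := by
    rw [eq_bot_iff, ← hyy']
    intro g hg
    have hg' := mem_ZZ.1 hg
    obtain ⟨k1, k2, k3, k4, k5, k6⟩ := hg'
    have kD : ∀ j, g j ∈ Dbl (n + 1) (d + 1) (P j) w := by
      intro j
      refine mem_Dbl.2 ⟨fun i => k1 i j, fun i hi k => ?_⟩
      have hij : π i = j := (Finset.mem_filter.1 hi).2
      have := k2 i k
      rwa [hij] at this
    refine ⟨fun j _ => ?_, ?_⟩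
    · refine Fin.cases ?_ (fun j => ?_) j
      · refine ⟨⟨kD 0, ?_⟩, ?_⟩
        · rw [SetLike.mem_coe, Submodule.mem_comap]
          refine mem_Dbl.2 ⟨fun i => ?_, fun i _ k => ?_⟩
          · have := k5 i
            rwa [eval_hp] at this
          · have := k6 i k
            rwa [eval_hp_pderiv] at this
        · rw [SetLike.mem_coe, Submodule.mem_iInf]
          intro i
          rw [LinearMap.mem_ker, ev_apply]
          exact k3 i
      · exact kD j.succ
    · rw [SetLike.mem_coe, Submodule.mem_iInf]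
      intro i
      rw [LinearMap.mem_ker, OmC1_apply]
      exact k4 i
  refine ((PK_ZZ d π).gen_bot hbot).mono fun x hx => ?_
  intro g hg hres j
  have h1 : (fun j => (⟨g j, mem_Pol.2 (hg j)⟩ : Pol (n + 1) (d + 1))) ∈ ZZ d π x :=
    mem_ZZ.2 hres
  rw [hx, Submodule.mem_bot] at h1
  exact congrArg Subtype.val (congrFun h1 j)

/-- degree 4, the scheme of War5 -/
theorem crit4 (hQZ : S_QZ) {n r : ℕ} (hn : 1 ≤ n) {h u y : ℕ} {p : Fin (r + 1) → ℕ}
    (e1 : NN n 4 = (n + r + 1) * u + y) (hu : GG n 4 u) (e2 : (r + 1) * u + y + ∑ j, p j = h)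
    (hA : ∃ u' ≤ p 0, GG n 3 (u' + y) ∧ SWaux.A n 2 (p 0 - u') u')
    (hq : ∀ j, (n + 3 - p j) * (n + 2 - p j) ≤ 2 * (∑ i, p i - p j))
    (hG : ∀ j, GG (n + 1) 3 (p j))
    (c2 : (n + 1) * p 0 + ∑ i, p i + (n + 1) * y + u ≤ NN (n + 1) 3)
    (c3 : ∀ j, (n + 1) * p j + ∑ i, p i ≤ NN (n + 1) 3)
    (h1 : (r + 1) * NN (n + 1) 4 ≤ (n + r + 2) * h) : KK n r h := by
  let I := (j : Fin (r + 1)) × Fin (p j)
  let π : I → Fin (r + 1) := fun i => i.1
  have hfib : ∀ j, fib π j = p j := FEWm.fib_sigma p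
  have hcard : Fintype.card I = ∑ j, p j := by
    rw [Fintype.card_sigma]
    simp
  have g2 : ∀ j, GG (n + 1) (2 + 1) (fib π j) := fun j => by
    rw [hfib]
    exact hG j
  have q1 : ∃ u' ≤ fib π 0, GG n (2 + 1) (u' + y) ∧ SWaux.A n 2 (fib π 0 - u') u' := by
    rw [hfib]
    exact hA
  have q2 : ∀ j, Gen ℂ fun w : I → Fin (n + 1) → ℂ =>
      Dbl (n + 1) 2 (Finset.univ.filter fun i => π i = j) w = ⊥ := by
    intro j
    refine hQZ (n + 1) I (Finset.univ.filter fun i => π i = j) (by omega) ?_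
    have e : (Finset.univ.filter fun i => π i = j).card = p j := hfib j
    rw [e, hcard]
    exact hq j
  have hN : NN (n + 1) 4 = NN n 4 + NN (n + 1) 3 := NN_succ n 3
  have key : (r + 1) * NN (n + 1) (2 + 1) ≤
      (n + r + 2) * Fintype.card I + (n + 1) * y + u + r * u := by
    rw [hcard]
    rw [← e2, hN, e1] at h1
    change (r + 1) * NN (n + 1) 3 ≤ _
    nlinarith
  have R := RES5G WarS.SG x_HD5 n 2 r u (r * u) y I π hn q1 q2 g2
    (by rw [hfib, hcard]; exact c2) (fun j => by rw [hfib, hcard]; exact c3 j) key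
  have T := (TRA WarS.SG) n 2 r u y hn hu (le_of_eq e1)
  have O : Gen ℂ fun z : I → Fin (n + 1) → ℂ => ∀ i, z i 0 ≠ 0 := gen_off
  have T' := T.comp (LinearMap.snd ℂ (I → Fin (n + 1) → ℂ) ((Fin u → Fin n → ℂ) ×
    (Fin (r * u) → Fin n → ℂ) × (Fin (r * u) → Fin (r + 1) → ℂ) × (Fin y → Fin n → ℂ)))
    Prod.snd_surjective
  have O' := O.comp (LinearMap.fst ℂ (I → Fin (n + 1) → ℂ) ((Fin u → Fin n → ℂ) ×
    (Fin (r * u) → Fin n → ℂ) × (Fin (r * u) → Fin (r + 1) → ℂ) × (Fin y → Fin n → ℂ)))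
    Prod.fst_surjective
  obtain ⟨⟨w, z1, z2, a, z0⟩, ⟨hR, hT⟩, hO⟩ := ((R.and T').and O').exists
  obtain ⟨t, ht⟩ := DH n 2 r u (r * u) y I π w z1 z2 a z0 hO hT.1 hT.2 hR
  -- all points
  let α := I ⊕ (Fin u ⊕ (Fin (r * u) ⊕ Fin y))
  have hα : Fintype.card α = h := by
    simp only [α, Fintype.card_sum, Fintype.card_fin]
    rw [hcard, ← e2]
    ring
  let e : α ≃ Fin h := Fintype.equivFinOfCardEq hα
  let Z : α → Fin (n + 1) → ℂ := Sum.elim w (Sum.elim (fun i => hp (z1 i))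
    (Sum.elim (fun i => hp (z2 i)) (fun i => Fin.cons t (z0 i))))
  let A : α → Fin (r + 1) → ℂ := Sum.elim (fun i => Pi.single (π i) 1)
    (Sum.elim (fun _ => Pi.single 0 1) (Sum.elim a (fun _ => Pi.single 0 1)))
  have hs : ∀ (k : Fin (r + 1)) (g : Fin (r + 1) → ℂ),
      ∑ j, (Pi.single k 1 : Fin (r + 1) → ℂ) j * g j = g k := by
    intro k g
    rw [Finset.sum_eq_single k]
    · rw [Pi.single_eq_same, one_mul]
    · intro j _ hj
      rw [Pi.single_eq_of_ne hj, zero_mul]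
    · intro hk
      exact absurd (Finset.mem_univ k) hk
  refine ⟨fun i => Z (e.symm i), fun i => A (e.symm i), fun f hf hf0 hf1 => ?_⟩
  have k0 : ∀ x : α, ∀ j, eval (Z x) (f j) = 0 := fun x j => by
    have := hf0 (e x) j
    simpa only [Equiv.symm_apply_apply] using this
  have k1 : ∀ x : α, ∀ k, ∑ j, A x j * eval (Z x) (pderiv k (f j)) = 0 := fun x k => by
    have := hf1 (e x) k
    simpa only [Equiv.symm_apply_apply] using this
  refine ht f hf (fun i j => k0 (Sum.inl i) j) (fun i k => ?_)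
    (fun i j => k0 (Sum.inr (Sum.inl i)) j) (fun i k => ?_)
    (fun i j => k0 (Sum.inr (Sum.inr (Sum.inl i))) j)
    (fun i k => k1 (Sum.inr (Sum.inr (Sum.inl i))) k)
    (fun i j => k0 (Sum.inr (Sum.inr (Sum.inr i))) j) (fun i k => ?_)
  · have := k1 (Sum.inl i) k
    rw [← hs (π i) (fun j => eval (w i) (pderiv k (f j)))]
    exact this
  · have := k1 (Sum.inr (Sum.inl i)) k
    rw [← hs 0 (fun j => eval (hp (z1 i)) (pderiv k (f j)))]
    exact this
  · have := k1 (Sum.inr (Sum.inr (Sum.inr i))) k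
    rw [← hs 0 (fun j => eval (Fin.cons t (z0 i) : Fin (n + 1) → ℂ) (pderiv k (f j)))]
    exact this

theorem cub {n p : ℕ} (h : (n + 1) * (p + 1) ≤ NN n 3) : GG n 3 p := WarM.CUBIC n p (Or.inl h)

end SPaux

open SPaux

/-- `(n, s) = (5, 2)` -/
theorem KK_5_2 (hQZ : S_QZ) : KK 4 1 36 := by
  have hO : GG 5 1 1 := WarM.ONE 5 1 le_rfl
  have hO2 : GG 5 2 1 := WarM.ONE 5 2 (by omega)
  have hK : KD 5 1 1 0 := by
    obtain ⟨z, hz⟩ := hO
    refine ⟨z, ?_⟩
    have : NN 5 1 = 6 := by decide +kernel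
    omega
  refine crit4 hQZ (n := 4) (r := 1) (u := 11) (y := 4) (p := ![3, 7]) (by omega)
    (by decide +kernel) (x_Q4 4 11 (by omega) (by decide +kernel)) (by decide +kernel)
    ⟨2, by decide, cub (by decide +kernel), ?_⟩ (by decide +kernel) ?_ (by decide +kernel)
    (by decide +kernel) (by decide +kernel)
  · exact x_AK 4 1 1 2 0 hO2 hK (by decide +kernel)
  · intro j
    fin_cases j
    · exact cub (n := 5) (p := 3) (by decide +kernel)
    · exact cub (n := 5) (p := 7) (by decide +kernel)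

/-- `(n, s) = (6, 6)` -/
theorem KK_6_6 (hQZ : S_QZ) : KK 5 5 105 := by
  refine crit4 hQZ (n := 5) (r := 5) (u := 11) (y := 5) (p := ![1, 7, 7, 7, 6, 6]) (by omega)
    (by decide +kernel) (x_Q4 5 11 (by omega) (by decide +kernel)) (by decide +kernel)
    ⟨1, by decide, cub (by decide +kernel), ?_⟩ (by decide +kernel) ?_ (by decide +kernel)
    (by decide +kernel) (by decide +kernel)
  · exact SWaux.A_zero (n := 5) (d := 2) (l := 1) (by decide +kernel)
  · intro j
    fin_cases j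
    · exact cub (n := 6) (p := 1) (by decide +kernel)
    · exact cub (n := 6) (p := 7) (by decide +kernel)
    · exact cub (n := 6) (p := 7) (by decide +kernel)
    · exact cub (n := 6) (p := 7) (by decide +kernel)
    · exact cub (n := 6) (p := 6) (by decide +kernel)
    · exact cub (n := 6) (p := 6) (by decide +kernel)

end Pool.Agent.WarD
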