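import Pool.Agent.WarD.Stmts
import Pool.Agent.WarS.SG
import Pool.Agent.WarS.TRA

/-!
# Simultaneous Waring decompositions (MP_db021c_ag): decoupled Horace step, trace lemma   (helper59)
-/

set_option autoImplicit false

open Module MvPolynomial
open Pool.Agent.War Pool.Agent.WarS

namespace Pool.Agent.WarD.TRBaux

/-- the parameter space -/
abbrev XX (n r : ℕ) (U Y : Type) : Type :=
  (U → Fin n → ℂ) × (U → Fin (r + 1) → ℂ) × (Y → Fin n → ℂ) × (Y → Fin (r + 1) → ℂ)

variable {n r : ℕ} {U Y : Type}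

def prz (i : U) : XX n r U Y →ₗ[ℂ] (Fin n → ℂ) :=
  (pt (n := n) i).comp (LinearMap.fst ℂ _ _)

def pra (i : U) : XX n r U Y →ₗ[ℂ] (Fin (r + 1) → ℂ) :=
  (pt (n := r + 1) i).comp ((LinearMap.fst ℂ _ _).comp (LinearMap.snd ℂ _ _))

def pry (i : Y) : XX n r U Y →ₗ[ℂ] (Fin n → ℂ) :=
  (pt (n := n) i).comp ((LinearMap.fst ℂ _ _).comp ((LinearMap.snd ℂ _ _).comp
    (LinearMap.snd ℂ _ _)))

def prα (i : Y) : XX n r U Y →ₗ[ℂ] (Fin (r + 1) → ℂ) :=
  (pt (n := r + 1) i).comp ((LinearMap.snd ℂ _ _).comp ((LinearMap.snd ℂ _ _).comp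
    (LinearMap.snd ℂ _ _)))

@[simp] theorem prz_apply (i : U) (x : XX n r U Y) : prz i x = x.1 i := rfl
@[simp] theorem pra_apply (i : U) (x : XX n r U Y) : pra i x = x.2.1 i := rfl
@[simp] theorem pry_apply (i : Y) (x : XX n r U Y) : pry i x = x.2.2.1 i := rfl
@[simp] theorem prα_apply (i : Y) (x : XX n r U Y) : prα i x = x.2.2.2 i := rfl

/-- the functional `f ↦ ∑ α_j f_j(y)` -/
noncomputable def Om (n d r : ℕ) (q : (Fin n → ℂ) × (Fin (r + 1) → ℂ)) :
    (Fin (r + 1) → Pol n d) →ₗ[ℂ] ℂ :=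
  ∑ j, q.2 j • (ev n d q.1).comp (LinearMap.proj j : (Fin (r + 1) → Pol n d) →ₗ[ℂ] Pol n d)

theorem Om_apply {d : ℕ} (q : (Fin n → ℂ) × (Fin (r + 1) → ℂ)) (f : Fin (r + 1) → Pol n d) :
    Om n d r q f = ∑ j, q.2 j * eval q.1 (f j : MvPolynomial (Fin n) ℂ) := by
  simp only [Om, LinearMap.sum_apply, LinearMap.smul_apply, LinearMap.comp_apply,
    LinearMap.proj_apply, ev_apply, smul_eq_mul]

/-- the trace space -/
noncomputable def TV (n d r : ℕ) {U Y : Type} (x : XX n r U Y) :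
    Submodule ℂ (Fin (r + 1) → Pol n d) :=
  ((⨅ q : U × Fin (r + 1), LinearMap.ker ((ev n d (prz q.1 x)).comp
      (LinearMap.proj q.2 : (Fin (r + 1) → Pol n d) →ₗ[ℂ] Pol n d))) ⊓
   (⨅ q : U × Fin n, LinearMap.ker (∑ j, pra q.1 x j • (dv n d q.2 (prz q.1 x)).comp
      (LinearMap.proj j : (Fin (r + 1) → Pol n d) →ₗ[ℂ] Pol n d)))) ⊓
  (⨅ i : Y, LinearMap.ker (Om n d r (pry i x, prα i x)))

theorem PK_TV (n d r : ℕ) (U Y : Type) [Finite U] [Finite Y] :
    PK (K := ℂ) fun x : XX n r U Y => TV n d r x := by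
  refine ((TRAaux.PK_ev _).inf (TRAaux.PK_dv _ (fun i x => pra i x) fun i j => ?_)).inf
    (PK.iInf fun i => PK.one (φ := fun x : XX n r U Y => Om n d r (pry i x, prα i x))
      fun f => ?_)
  · exact LP.linear ((LinearMap.proj j : (Fin (r + 1) → ℂ) →ₗ[ℂ] ℂ).comp (pra i))
  · simp only [Om_apply]
    refine LP.sum _ fun j _ => LP.mul ?_ (TRAaux.LP_ev (pry i) _)
    exact LP.linear ((LinearMap.proj j : (Fin (r + 1) → ℂ) →ₗ[ℂ] ℂ).comp (prα i))

theorem mem_TV {d : ℕ} {x : XX n r U Y} {f : Fin (r + 1) → Pol n d} :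
    f ∈ TV n d r x ↔
      ((∀ i j, eval (x.1 i) (f j : MvPolynomial (Fin n) ℂ) = 0) ∧
        (∀ i k, ∑ j, x.2.1 i j *
          eval (x.1 i) (pderiv k (f j : MvPolynomial (Fin n) ℂ)) = 0)) ∧
      (∀ i, ∑ j, x.2.2.2 i j * eval (x.2.2.1 i) (f j : MvPolynomial (Fin n) ℂ) = 0) := by
  simp only [TV, Submodule.mem_inf, Submodule.mem_iInf, LinearMap.mem_ker, LinearMap.comp_apply,
    LinearMap.sum_apply, LinearMap.smul_apply, LinearMap.proj_apply, ev_apply, dv_apply, Om_apply,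
    smul_eq_mul, Prod.forall, prz_apply, pra_apply, pry_apply, prα_apply]

/-- the dimension of a product of subspaces -/
theorem finrank_prod {ι V : Type} [Fintype ι] [AddCommGroup V] [Module ℂ V]
    [FiniteDimensional ℂ V] (D : ι → Submodule ℂ V) :
    finrank ℂ (Submodule.pi Set.univ D) ≤ ∑ i, finrank ℂ (D i) := by
  have h : finrank ℂ (∀ i, D i) = ∑ i, finrank ℂ (D i) := Module.finrank_pi_fintype ℂ
  rw [← h]
  refine LinearMap.finrank_le_finrank_of_injective (f := LinearMap.pi fun i =>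
    (LinearMap.codRestrict (D i) ((LinearMap.proj i : (ι → V) →ₗ[ℂ] V).comp
      (Submodule.pi Set.univ D).subtype) fun v => ?_)) ?_
  · exact (Submodule.mem_pi.1 v.2) i (Set.mem_univ i)
  · intro v w hvw
    apply Subtype.ext
    funext i
    have := congrArg Subtype.val (congrFun hvw i)
    exact this

end Pool.Agent.WarD.TRBaux

namespace Pool.Agent.WarD

open TRBaux

theorem x_TRB : S_TRB := by
  classical
  intro n d r U Y _ _ υ hn hG hN
  have hgen : ∀ j : Fin (r + 1), Gen ℂ fun z : U → Fin n → ℂ =>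
      finrank ℂ (Dbl n (d + 2) (Finset.univ.filter fun i => υ i = j) z) ≤
        NN n (d + 2) - (n * fib υ j + Fintype.card U) := fun j =>
    WarS.SG n (d + 2) U (Finset.univ.filter fun i => υ i = j) hn (hG j)
  obtain ⟨z, hz⟩ := (Gen.forall hgen).exists
  set W : Submodule ℂ (Fin (r + 1) → Pol n (d + 2)) := Submodule.pi Set.univ
    fun j : Fin (r + 1) => Dbl n (d + 2) (Finset.univ.filter fun i => υ i = j) z with hW
  have hWd : finrank ℂ W ≤ Fintype.card Y :=
    (finrank_prod _).trans ((Finset.sum_le_sum fun j _ => hz j).trans hN)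
  obtain ⟨q, hq⟩ := red (Y := (Fin n → ℂ) × (Fin (r + 1) → ℂ)) (Om n (d + 2) r) W ⊥ (by
    intro f _ hf
    by_contra hc
    push Not at hc
    apply hf
    rw [Submodule.mem_bot]
    funext j
    apply Subtype.ext
    apply MvPolynomial.funext
    intro x
    have h := hc (x, Pi.single j 1)
    rw [Om_apply, Finset.sum_eq_single j] at h
    · simp only [Pi.single_eq_same, one_mul] at h
      rw [h]
      simp
    · intro j' _ hj'
      simp only
      rw [Pi.single_eq_of_ne hj', zero_mul]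
    · intro h'
      exact absurd (Finset.mem_univ _) h') (Fintype.card Y)
  have hq0 : W ⊓ ⨅ i, LinearMap.ker (Om n (d + 2) r (q i)) = ⊥ := by
    refine Submodule.finrank_eq_zero.1 (Nat.le_zero.1 (hq.trans ?_))
    rw [finrank_bot]
    refine max_le ?_ le_rfl
    omega
  let e : Y ≃ Fin (Fintype.card Y) := Fintype.equivFin Y
  let x₀ : XX n r U Y := (z, fun i => Pi.single (υ i) 1, fun i => (q (e i)).1,
    fun i => (q (e i)).2)
  have h0 : TV n (d + 2) r x₀ = ⊥ := by
    rw [eq_bot_iff, ← hq0]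
    intro f hf
    rw [mem_TV] at hf
    obtain ⟨⟨k1, k2⟩, k3⟩ := hf
    rw [Submodule.mem_inf]
    constructor
    · rw [hW, Submodule.mem_pi]
      intro j _
      rw [mem_Dbl]
      refine ⟨fun i => k1 i j, fun i hi k => ?_⟩
      have hij : υ i = j := (Finset.mem_filter.1 hi).2
      have h := k2 i k
      rw [Finset.sum_eq_single j] at h
      · simp only [x₀, hij, Pi.single_eq_same, one_mul] at h
        exact h
      · intro j' _ hj'
        simp only [x₀, hij]
        rw [Pi.single_eq_of_ne hj', zero_mul]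
      · intro h'
        exact absurd (Finset.mem_univ _) h'
    · rw [Submodule.mem_iInf]
      intro i
      rw [LinearMap.mem_ker, Om_apply]
      have h := k3 (e.symm i)
      simp only [x₀, Equiv.apply_symm_apply] at h
      exact h
  refine ((PK_TV n (d + 2) r U Y).gen_bot h0).mono fun x hx => ?_
  intro f hf h1 h2 h3 j
  have hm : (fun j => (⟨f j, mem_Pol.2 (hf j)⟩ : Pol n (d + 2))) ∈ TV n (d + 2) r x := by
    rw [mem_TV]
    exact ⟨⟨h1, h2⟩, h3⟩
  rw [hx, Submodule.mem_bot] at hm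
  exact congrArg Subtype.val (congrFun hm j)

end Pool.Agent.WarD
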