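import Pool.Agent.WarD.NumF
import Pool.Agent.WarD.TRB
import Pool.Agent.WarD.SDB
import Pool.Agent.WarD.QZ
import Pool.Agent.WarD.SP
import Pool.Agent.WarD.REB

/-!
# Simultaneous Waring decompositions (MP_db021c_ag), degree 4, at most `n` forms   (helper27)
-/

set_option autoImplicit false

open Module MvPolynomial
open Pool.Agent.War Pool.Agent.WarS

namespace Pool.Agent.WarD

namespace Mainaux

theorem dat_1_1 : Dat 1 1 3 1 4 := by
  have e1 : NN 1 4 = 5 := by rw [NumF.c4_eq]; rfl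
  have e2 : NN 2 3 = 10 := by rw [NumF.c3_eq]; rfl
  have e3 : NN 1 2 = 3 := by rw [NumF.c2_eq]; rfl
  refine ⟨fun j hj => ?_, by rw [e1]; decide, fun j hj => ?_, fun j hj => ?_,
    by rw [e2]; decide⟩
  · refine War5.dbl.1 1 4 _ le_rfl (by norm_num) ?_
    unfold War5.gg
    interval_cases j <;> decide
  · interval_cases j <;> decide
  · rw [e3]
    interval_cases j
    · exact ⟨1, by decide, by decide, War5.x_G1 3 2 (by norm_num), by decide⟩
    · exact ⟨2, by decide, by decide, War5.x_G1 3 2 (by norm_num), by decide⟩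

theorem dat_2_1 : Dat 2 1 7 2 5 := by
  have e1 : NN 2 4 = 15 := by rw [NumF.c4_eq]; rfl
  have e2 : NN 3 3 = 20 := by rw [NumF.c3_eq]; rfl
  have e3 : NN 2 2 = 6 := by rw [NumF.c2_eq]; rfl
  have e4 : NN 2 3 = 10 := by rw [NumF.c3_eq]; rfl
  have g3 : GG 2 3 3 := WarM.CUBIC 2 3 (Or.inr ⟨by norm_num, by rw [e4]; norm_num⟩)
  refine ⟨fun j hj => ?_, by rw [e1]; decide, fun j hj => ?_, fun j hj => ?_,
    by rw [e2]; decide⟩
  · refine War5.dbl.1 2 4 _ (by norm_num) (by norm_num) ?_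
    unfold War5.gg War5.P4
    interval_cases j <;> decide
  · interval_cases j <;> decide
  · rw [e3]
    interval_cases j
    · exact ⟨2, by decide, by decide, g3, by decide⟩
    · exact ⟨2, by decide, by decide, g3, by decide⟩

end Mainaux

open Mainaux in
/-- the critical number of points kills -/
theorem KKall (n r h : ℕ) (hn : 1 ≤ n) (hr : 1 ≤ r) (hrn : r ≤ n)
    (hh : (r + 1) * NN (n + 1) 4 ≤ (n + r + 2) * h) : KK n r h := by
  have main : (∃ U Y M, Dat n r U Y M ∧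
      ∀ h, (r + 1) * NN (n + 1) 4 ≤ (n + r + 2) * h → U + Y + M ≤ h) → KK n r h := by
    rintro ⟨U, Y, M, hD, hle⟩
    obtain ⟨u, y, p, q, hNB, hsum⟩ := hD.NB
    exact FEWB x_TRB x_REB x_SDB x_QZ hn hNB (by rw [hsum]; exact hle h hh)
  rcases Nat.lt_or_ge n 39 with hlt | hge
  · rcases NumF.all_ok n hlt r (by omega) with h0 | h0 | h0 | h0 | h0
    · omega
    · omega
    · unfold NumF.exc at h0
      simp only [Bool.or_eq_true, Bool.and_eq_true, beq_iff_eq] at h0
      rcases h0 with ⟨rfl, rfl⟩ | ⟨rfl, rfl⟩ | ⟨rfl, rfl⟩ | ⟨rfl, rfl⟩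
      · refine main ⟨3, 1, 4, dat_1_1, fun h hh => ?_⟩
        have e : NN (1 + 1) 4 = 15 := by rw [NumF.c4_eq]; rfl
        rw [e] at hh
        omega
      · refine main ⟨7, 2, 5, dat_2_1, fun h hh => ?_⟩
        have e : NN (2 + 1) 4 = 35 := by rw [NumF.c4_eq]; rfl
        rw [e] at hh
        omega
      · have e : NN (4 + 1) 4 = 126 := by rw [NumF.c4_eq]; rfl
        rw [e] at hh
        exact (KK_5_2 x_QZ).mono (by omega)
      · have e : NN (5 + 1) 4 = 210 := by rw [NumF.c4_eq]; rfl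
        rw [e] at hh
        exact (KK_6_6 x_QZ).mono (by omega)
    · exact main ⟨_, _, _, NumF.dat_of_chk hn h0⟩
    · obtain ⟨x, hx, rfl, rfl⟩ := h0
      exact main ⟨_, _, _, NumF.dat_of_chk hn (NumF.tab_ok x hx)⟩
  · exact main (NumG.gen x_Q4 n r hge hr hrn)

/-- at most `n` forms of degree 4: no exceptions -/
theorem W_few4 (n s h : ℕ) (hn : 2 ≤ n) (hs : 2 ≤ s) (hsn : s ≤ n) :
    Waring.W 4 h n s ↔ min s ((n + 4).choose n) ≤ h ∧ s * (n + 4).choose n ≤ h * (n + s) := by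
  refine ⟨fun H => ⟨H.bound2, H.bound1 (by omega)⟩, fun H => ?_⟩
  obtain ⟨m, rfl⟩ : ∃ m, n = m + 1 := ⟨n - 1, by omega⟩
  obtain ⟨r, rfl⟩ : ∃ r, s = r + 1 := ⟨s - 1, by omega⟩
  have h2 : (r + 1) * War.NN (m + 1) 4 ≤ (m + r + 2) * h := by
    have := H.2
    unfold War.NN
    calc _ ≤ _ := this
      _ = _ := by ring
  obtain ⟨z, a, hK⟩ := KKall m r h (by omega) (by omega) (by omega) h2
  exact Waring.W_of_dual z a fun g hg h1 h2 => hK g hg h1 h2

end Pool.Agent.WarD
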