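import Pool.Agent.WarD.Stmts
import Pool.Agent.WarS.DH

/-!
# Simultaneous Waring decompositions (MP_db021c_ag): decoupled differential Horace   (helper27)

Adapted from WarS/DH.lean (helper86); the idea of the decoupling is due to helper25.
For `t ≠ 0` write `f = t ρ + x₀ g`; the conditions on `(ρ, g)` are polynomial in `t` and have only
the zero solution at `t = 0`.
-/

set_option autoImplicit false

open Module MvPolynomial
open Pool.Agent.War Pool.Agent.WarS Pool.Agent.WarS.DHaux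

namespace Pool.Agent.WarD

namespace DHBaux

section

variable {n d r : ℕ} {I U Y : Type}

/-- the conditions on `(ρ, g)` -/
structure CndB (d : ℕ) {n r : ℕ} {I U Y : Type} (w : I → Fin (n + 1) → ℂ) (b : I → Fin (r + 1) → ℂ)
    (z : U → Fin n → ℂ) (a : U → Fin (r + 1) → ℂ) (y : Y → Fin n → ℂ)
    (α : Y → Fin (r + 1) → ℂ) (t : ℂ) (x : VV n d r) : Prop where
  a1 : ∀ i j, eval (z i) (x.1 j : MvPolynomial (Fin n) ℂ) = 0
  a2 : ∀ i k, ∑ j, a i j * eval (z i) (pderiv k (x.1 j : MvPolynomial (Fin n) ℂ)) = 0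
  a3 : ∀ i, ∑ j, a i j * eval (hp (z i)) (x.2 j : MvPolynomial (Fin (n + 1)) ℂ) = 0
  c1 : ∀ i j, eval (w i) (ff t j x) = 0
  c2 : ∀ i k, ∑ j, b i j * eval (w i) (pderiv k (ff t j x)) = 0
  e1 : ∀ i j, eval (y i) (x.1 j : MvPolynomial (Fin n) ℂ) +
    eval (Fin.cons t (y i) : Fin (n + 1) → ℂ) (x.2 j : MvPolynomial (Fin (n + 1)) ℂ) = 0
  e2 : ∀ i, ∑ j, α i j * (eval (y i) (x.1 j : MvPolynomial (Fin n) ℂ) - t *
    eval (Fin.cons t (y i) : Fin (n + 1) → ℂ)
      (pderiv 0 (x.2 j : MvPolynomial (Fin (n + 1)) ℂ))) = 0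
  e4 : ∀ i (k : Fin n), ∑ j, α i j * (eval (y i) (pderiv k (x.1 j : MvPolynomial (Fin n) ℂ)) +
    eval (Fin.cons t (y i) : Fin (n + 1) → ℂ)
      (pderiv k.succ (x.2 j : MvPolynomial (Fin (n + 1)) ℂ))) = 0

/-- the family of the solution spaces -/
theorem exists_PK [Finite I] [Finite U] [Finite Y] (w : I → Fin (n + 1) → ℂ)
    (b : I → Fin (r + 1) → ℂ) (z : U → Fin n → ℂ) (a : U → Fin (r + 1) → ℂ) (y : Y → Fin n → ℂ)
    (α : Y → Fin (r + 1) → ℂ) :
    ∃ Z : ℂ → Submodule ℂ (VV n d r), PK Z ∧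
      ∀ t x, x ∈ Z t ↔ CndB d w b z a y α t x := by
  have hconst : ∀ φ : VV n d r →ₗ[ℂ] ℂ, PK fun _ : ℂ => LinearMap.ker φ := fun φ =>
    PK.one (φ := fun _ : ℂ => φ) fun x => LP.const _
  have A1 : PK fun _ : ℂ => ⨅ q : U × Fin (r + 1),
      LinearMap.ker (el (z q.1) ∘ₗ (rho q.2 : VV n d r →ₗ[ℂ] _)) :=
    PK.iInf fun q => hconst _
  have A2 : PK fun _ : ℂ => ⨅ q : U × Fin n,
      LinearMap.ker (∑ j, a q.1 j • (el (z q.1) ∘ₗ pd q.2 ∘ₗ (rho j : VV n d r →ₗ[ℂ] _))) :=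
    PK.iInf fun q => hconst _
  have A3 : PK fun _ : ℂ => ⨅ q : U,
      LinearMap.ker (∑ j, a q j • (el (hp (z q)) ∘ₗ (gg j : VV n d r →ₗ[ℂ] _))) :=
    PK.iInf fun q => hconst _
  have C1 : PK fun t : ℂ => ⨅ q : I × Fin (r + 1),
      LinearMap.ker (el (w q.1) ∘ₗ (ff t q.2 : VV n d r →ₗ[ℂ] _)) := by
    refine PK.iInf fun q => PK.one
      (φ := fun t : ℂ => el (w q.1) ∘ₗ (ff t q.2 : VV n d r →ₗ[ℂ] _)) fun x => ?_
    simp only [LinearMap.comp_apply, el_apply, ff_apply, map_add, smul_eval]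
    exact (LP_id.mul (LP.const _)).add (LP.const _)
  have C2 : PK fun t : ℂ => ⨅ q : I × Fin (n + 1),
      LinearMap.ker (∑ j, b q.1 j • (el (w q.1) ∘ₗ pd q.2 ∘ₗ (ff t j : VV n d r →ₗ[ℂ] _))) := by
    refine PK.iInf fun q => PK.one
      (φ := fun t : ℂ => ∑ j, b q.1 j • (el (w q.1) ∘ₗ pd q.2 ∘ₗ (ff t j : VV n d r →ₗ[ℂ] _)))
      fun x => ?_
    simp only [LinearMap.sum_apply, LinearMap.smul_apply, LinearMap.comp_apply, el_apply,
      pd_apply, ff_apply, map_add, Derivation.map_smul, smul_eval, smul_eq_mul]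
    exact LP.sum _ fun j _ => (LP.const _).mul ((LP_id.mul (LP.const _)).add (LP.const _))
  have E1 : PK fun t : ℂ => ⨅ q : Y × Fin (r + 1),
      LinearMap.ker (el (y q.1) ∘ₗ (rho q.2 : VV n d r →ₗ[ℂ] _) +
        el (Fin.cons t (y q.1) : Fin (n + 1) → ℂ) ∘ₗ (gg q.2 : VV n d r →ₗ[ℂ] _)) := by
    refine PK.iInf fun q => PK.one
      (φ := fun t : ℂ => el (y q.1) ∘ₗ (rho q.2 : VV n d r →ₗ[ℂ] _) +
        el (Fin.cons t (y q.1) : Fin (n + 1) → ℂ) ∘ₗ (gg q.2 : VV n d r →ₗ[ℂ] _))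
        fun x => ?_
    simp only [LinearMap.add_apply, LinearMap.comp_apply, el_apply, rho_apply, gg_apply]
    exact (LP.const _).add (LP_cons _ _)
  have E2 : PK fun t : ℂ => ⨅ q : Y,
      LinearMap.ker (∑ j, α q j • (el (y q) ∘ₗ (rho j : VV n d r →ₗ[ℂ] _) + (-t) •
        (el (Fin.cons t (y q) : Fin (n + 1) → ℂ) ∘ₗ pd 0 ∘ₗ (gg j : VV n d r →ₗ[ℂ] _)))) := by
    refine PK.iInf fun q => PK.one
      (φ := fun t : ℂ => ∑ j, α q j • (el (y q) ∘ₗ (rho j : VV n d r →ₗ[ℂ] _) + (-t) •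
        (el (Fin.cons t (y q) : Fin (n + 1) → ℂ) ∘ₗ pd 0 ∘ₗ (gg j : VV n d r →ₗ[ℂ] _))))
        fun x => ?_
    simp only [LinearMap.sum_apply, LinearMap.add_apply, LinearMap.smul_apply,
      LinearMap.comp_apply, el_apply, rho_apply, gg_apply, pd_apply, smul_eq_mul]
    exact LP.sum _ fun j _ => (LP.const _).mul ((LP.const _).add (LP_neg.mul (LP_cons _ _)))
  have E4 : PK fun t : ℂ => ⨅ q : Y × Fin n,
      LinearMap.ker (∑ j, α q.1 j • (el (y q.1) ∘ₗ pd q.2 ∘ₗ (rho j : VV n d r →ₗ[ℂ] _) +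
        el (Fin.cons t (y q.1) : Fin (n + 1) → ℂ) ∘ₗ pd q.2.succ ∘ₗ
          (gg j : VV n d r →ₗ[ℂ] _))) := by
    refine PK.iInf fun q => PK.one
      (φ := fun t : ℂ => ∑ j, α q.1 j • (el (y q.1) ∘ₗ pd q.2 ∘ₗ (rho j : VV n d r →ₗ[ℂ] _) +
        el (Fin.cons t (y q.1) : Fin (n + 1) → ℂ) ∘ₗ pd q.2.succ ∘ₗ
          (gg j : VV n d r →ₗ[ℂ] _))) fun x => ?_
    simp only [LinearMap.sum_apply, LinearMap.smul_apply, LinearMap.add_apply,
      LinearMap.comp_apply, el_apply, rho_apply, gg_apply, pd_apply, smul_eq_mul]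
    exact LP.sum _ fun j _ => (LP.const _).mul ((LP.const _).add (LP_cons _ _))
  refine ⟨_, ((A1.inf A2).inf A3).inf ((C1.inf C2).inf ((E1.inf E2).inf E4)), fun t x => ?_⟩
  simp only [Submodule.mem_inf, Submodule.mem_iInf, LinearMap.mem_ker, Prod.forall,
    LinearMap.comp_apply, LinearMap.add_apply, LinearMap.smul_apply, LinearMap.sum_apply,
    el_apply, pd_apply, rho_apply, gg_apply, smul_eq_mul, neg_mul, ← sub_eq_add_neg]
  constructor
  · rintro ⟨⟨⟨h1, h2⟩, h3⟩, ⟨h4, h5⟩, ⟨h6, h7⟩, h8⟩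
    exact ⟨h1, h2, h3, h4, h5, h6, h7, h8⟩
  · rintro ⟨h1, h2, h3, h4, h5, h6, h7, h8⟩
    exact ⟨⟨⟨h1, h2⟩, h3⟩, ⟨h4, h5⟩, ⟨h6, h7⟩, h8⟩

/-- no solutions at `t = 0` -/
theorem zero_of_cnd {w : I → Fin (n + 1) → ℂ} {b : I → Fin (r + 1) → ℂ} {z : U → Fin n → ℂ}
    {a : U → Fin (r + 1) → ℂ} {y : Y → Fin n → ℂ} {α : Y → Fin (r + 1) → ℂ}
    (hw : ∀ i, w i 0 ≠ 0) (hT : TrB d z a y α) (hR : ReB d w b z a y α) {x : VV n d r}
    (h : CndB d w b z a y α 0 x) : x = 0 := by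
  have hρ : ∀ j, (x.1 j : MvPolynomial (Fin n) ℂ) = 0 := by
    refine hT (fun j => (x.1 j : MvPolynomial (Fin n) ℂ)) (fun j => mem_Pol.1 (x.1 j).2)
      h.a1 h.a2 fun i => ?_
    have := h.e2 i
    simpa only [zero_mul, sub_zero] using this
  have hoff : ∀ i j, eval (w i) (x.2 j : MvPolynomial (Fin (n + 1)) ℂ) = 0 := by
    intro i j
    have h1 := h.c1 i j
    rw [ff_apply, zero_smul, zero_add, map_mul, eval_X] at h1
    exact (mul_eq_zero.1 h1).resolve_left (hw i)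
  have hg : ∀ j, (x.2 j : MvPolynomial (Fin (n + 1)) ℂ) = 0 := by
    refine hR (fun j => (x.2 j : MvPolynomial (Fin (n + 1)) ℂ)) (fun j => mem_Pol.1 (x.2 j).2)
      hoff (fun i k => ?_) h.a3 (fun i j => ?_) (fun i k => ?_)
    · have h1 := h.c2 i k
      have e : ∀ j, eval (w i) (pderiv k (ff 0 j x)) =
          w i 0 * eval (w i) (pderiv k (x.2 j : MvPolynomial (Fin (n + 1)) ℂ)) := by
        intro j
        rw [ff_apply, zero_smul, zero_add]
        refine Fin.cases ?_ (fun k => ?_) k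
        · rw [pderiv_zero_X_mul, map_add, map_mul, eval_X, hoff, add_zero]
        · rw [pderiv_succ_X_mul, map_mul, eval_X]
      simp only [e] at h1
      have e2 : ∑ j, b i j * (w i 0 * eval (w i)
          (pderiv k (x.2 j : MvPolynomial (Fin (n + 1)) ℂ))) =
          w i 0 * ∑ j, b i j * eval (w i) (pderiv k (x.2 j : MvPolynomial (Fin (n + 1)) ℂ)) := by
        rw [Finset.mul_sum]
        exact Finset.sum_congr rfl fun j _ => by ring
      rw [e2] at h1
      exact (mul_eq_zero.1 h1).resolve_left (hw i)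
    · have h1 := h.e1 i j
      rw [hρ, map_zero, zero_add] at h1
      exact h1
    · have h1 := h.e4 i k
      simp only [hρ, map_zero, zero_add] at h1
      exact h1
  refine Prod.ext (funext fun j => Subtype.ext (hρ j)) (funext fun j => Subtype.ext (hg j))

/-- the conditions on `f` give those on `(ρ, g)` -/
theorem cnd_of_kill {w : I → Fin (n + 1) → ℂ} {b : I → Fin (r + 1) → ℂ} {z : U → Fin n → ℂ}
    {a : U → Fin (r + 1) → ℂ} {y : Y → Fin n → ℂ} {α : Y → Fin (r + 1) → ℂ} {t : ℂ} (ht : t ≠ 0)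
    (f : Fin (r + 1) → MvPolynomial (Fin (n + 1)) ℂ) {x : VV n d r} (hx : ∀ j, f j = ff t j x)
    (k1 : ∀ i j, eval (w i) (f j) = 0)
    (k2 : ∀ i k, ∑ j, b i j * eval (w i) (pderiv k (f j)) = 0)
    (k5 : ∀ i j, eval (hp (z i)) (f j) = 0)
    (k6 : ∀ i k, ∑ j, a i j * eval (hp (z i)) (pderiv k (f j)) = 0)
    (k7 : ∀ i j, eval (Fin.cons t (y i) : Fin (n + 1) → ℂ) (f j) = 0)
    (k8 : ∀ i k, ∑ j, α i j * eval (Fin.cons t (y i) : Fin (n + 1) → ℂ) (pderiv k (f j)) = 0) :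
    CndB d w b z a y α t x := by
  -- on the hyperplane
  have H0 : ∀ (z : Fin n → ℂ) j, eval (hp z) (f j) =
      t * eval z (x.1 j : MvPolynomial (Fin n) ℂ) := by
    intro z j
    rw [hx, ff_apply, map_add, smul_eval, eval_hp_rename, map_mul, eval_X, hp_zero, zero_mul,
      add_zero]
  have H1 : ∀ (z : Fin n → ℂ) k j, eval (hp z) (pderiv (Fin.succ k) (f j)) =
      t * eval z (pderiv k (x.1 j : MvPolynomial (Fin n) ℂ)) := by
    intro z k j
    rw [hx, ff_apply, map_add, Derivation.map_smul, pderiv_succ_rename, pderiv_succ_X_mul, map_add,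
      smul_eval, eval_hp_rename, map_mul, eval_X, hp_zero, zero_mul, add_zero]
  have H2 : ∀ (z : Fin n → ℂ) j, eval (hp z) (pderiv 0 (f j)) =
      eval (hp z) (x.2 j : MvPolynomial (Fin (n + 1)) ℂ) := by
    intro z j
    rw [hx, ff_apply, map_add, Derivation.map_smul, pderiv_zero_rename, smul_zero, zero_add,
      pderiv_zero_X_mul, map_add, map_mul, eval_X, hp_zero, zero_mul, zero_add]
  -- at the moving points
  have M0 : ∀ (z : Fin n → ℂ) j, eval (Fin.cons t z : Fin (n + 1) → ℂ) (f j) =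
      t * (eval z (x.1 j : MvPolynomial (Fin n) ℂ) +
        eval (Fin.cons t z : Fin (n + 1) → ℂ) (x.2 j : MvPolynomial (Fin (n + 1)) ℂ)) := by
    intro z j
    rw [hx, ff_apply, map_add, smul_eval, eval_cons_rename, map_mul, eval_X, Fin.cons_zero]
    ring
  have M1 : ∀ (z : Fin n → ℂ) k j, eval (Fin.cons t z : Fin (n + 1) → ℂ)
      (pderiv (Fin.succ k) (f j)) =
      t * (eval z (pderiv k (x.1 j : MvPolynomial (Fin n) ℂ)) +
        eval (Fin.cons t z : Fin (n + 1) → ℂ)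
          (pderiv k.succ (x.2 j : MvPolynomial (Fin (n + 1)) ℂ))) := by
    intro z k j
    rw [hx, ff_apply, map_add, Derivation.map_smul, pderiv_succ_rename, pderiv_succ_X_mul, map_add,
      smul_eval, eval_cons_rename, map_mul, eval_X, Fin.cons_zero]
    ring
  have M2 : ∀ (z : Fin n → ℂ) j, eval (Fin.cons t z : Fin (n + 1) → ℂ) (pderiv 0 (f j)) =
      eval (Fin.cons t z : Fin (n + 1) → ℂ) (x.2 j : MvPolynomial (Fin (n + 1)) ℂ) +
        t * eval (Fin.cons t z : Fin (n + 1) → ℂ)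
          (pderiv 0 (x.2 j : MvPolynomial (Fin (n + 1)) ℂ)) := by
    intro z j
    rw [hx, ff_apply, map_add, Derivation.map_smul, pderiv_zero_rename, smul_zero, zero_add,
      pderiv_zero_X_mul, map_add, map_mul, eval_X, Fin.cons_zero]
    ring
  have pull : ∀ (c : ℂ) (A B : Fin (r + 1) → ℂ),
      ∑ j, A j * (c * B j) = c * ∑ j, A j * B j := by
    intro c A B
    rw [Finset.mul_sum]
    exact Finset.sum_congr rfl fun j _ => by ring
  have N0 : ∀ i j, eval (y i) (x.1 j : MvPolynomial (Fin n) ℂ) +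
      eval (Fin.cons t (y i) : Fin (n + 1) → ℂ) (x.2 j : MvPolynomial (Fin (n + 1)) ℂ) = 0 := by
    intro i j
    have := k7 i j
    rw [M0] at this
    exact (mul_eq_zero.1 this).resolve_left ht
  refine ⟨fun i j => ?_, fun i k => ?_, fun i => ?_, fun i j => ?_, fun i k => ?_,
    N0, fun i => ?_, fun i k => ?_⟩
  · have := k5 i j
    rw [H0] at this
    exact (mul_eq_zero.1 this).resolve_left ht
  · have := k6 i k.succ
    simp only [H1] at this
    rw [pull] at this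
    exact (mul_eq_zero.1 this).resolve_left ht
  · have := k6 i 0
    simp only [H2] at this
    exact this
  · rw [← hx]
    exact k1 i j
  · simp only [← hx]
    exact k2 i k
  · have h2 := k8 i 0
    simp only [M2] at h2
    have h3 : ∑ j, α i j * (eval (y i) (x.1 j : MvPolynomial (Fin n) ℂ) +
        eval (Fin.cons t (y i) : Fin (n + 1) → ℂ)
          (x.2 j : MvPolynomial (Fin (n + 1)) ℂ)) = 0 :=
      Finset.sum_eq_zero fun j _ => by rw [N0, mul_zero]
    have h4 := congrArg₂ (· - ·) h3 h2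
    simp only [sub_zero] at h4
    rw [← Finset.sum_sub_distrib] at h4
    rw [← h4]
    exact Finset.sum_congr rfl fun j _ => by ring
  · have := k8 i k.succ
    simp only [M1] at this
    rw [pull] at this
    exact (mul_eq_zero.1 this).resolve_left ht

end

end DHBaux

open DHBaux in
/-- decoupled differential Horace -/
theorem x_DHB : S_DHB := by
  intro n d r I U Y _ _ _ w b z a y α hw hT hR
  obtain ⟨Z, hZ, hmem⟩ := DHBaux.exists_PK (n := n) (d := d) (r := r) w b z a y α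
  have h0 : Z 0 = ⊥ := by
    rw [Submodule.eq_bot_iff]
    intro x hx
    exact DHBaux.zero_of_cnd hw hT hR ((hmem 0 x).1 hx)
  obtain ⟨t, ht1, ht2⟩ := ((hZ.gen_bot h0).and
    (Gen.ne (K := ℂ) (X := ℂ) LP_id 1 one_ne_zero)).exists
  refine ⟨t, fun f hf k1 k2 k5 k6 k7 k8 => ?_⟩
  obtain ⟨x, hx⟩ := exists_dec ht2 f hf
  have h1 := (hmem t x).2 (DHBaux.cnd_of_kill ht2 f hx k1 k2 k5 k6 k7 k8)
  rw [ht1, Submodule.mem_bot] at h1
  intro j
  rw [hx, h1, map_zero]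

end Pool.Agent.WarD
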