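import Pool.Agent.WarD.FEWB
import Pool.Agent.WarM.NUM
import Pool.Agent.WarM.CubAH
import Pool.Agent.WarM.ONE
import Pool.Agent.War5.AK

/-!
# Simultaneous Waring decompositions (MP_db021c_ag), degree 4, few forms: balanced data   (helper27)
-/

set_option autoImplicit false

open Module MvPolynomial
open Pool.Agent.War Pool.Agent.WarS

namespace Pool.Agent.WarD

theorem sum_bal (s : ℕ) (hs : 0 < s) (N : ℕ) : ∑ j ∈ Finset.range s, (N + j) / s = N := by
  induction N with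
  | zero =>
    refine Finset.sum_eq_zero fun j hj => ?_
    rw [zero_add]
    exact Nat.div_eq_of_lt (Finset.mem_range.1 hj)
  | succ N ih =>
    have h1 := Finset.sum_range_succ (fun j => (N + j) / s) s
    have h2 := Finset.sum_range_succ' (fun j => (N + j) / s) s
    rw [ih] at h1
    have h3 : ∑ j ∈ Finset.range s, (N + 1 + j) / s = ∑ j ∈ Finset.range s, (N + (j + 1)) / s :=
      Finset.sum_congr rfl fun j _ => by rw [show N + 1 + j = N + (j + 1) by ring]
    have h4 : (N + s) / s = N / s + 1 := Nat.add_div_right N hs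
    rw [add_zero] at h2
    rw [h3]
    omega

theorem sum_balr (r N : ℕ) : ∑ j ∈ Finset.range (r + 1), (N + (r - j)) / (r + 1) = N := by
  have h := Finset.sum_range_reflect (fun j => (N + j) / (r + 1)) (r + 1)
  rw [sum_bal (r + 1) (Nat.succ_pos r) N] at h
  simpa using h

/-- numerical condition for cubics -/
def C3 (n p : ℕ) : Prop :=
  (n + 1) * (p + 1) ≤ NN n 3 ∨ ((n + 1) % 3 ≠ 2 ∧ (n + 1) * p ≤ NN n 3)

/-- the conditions for balanced numbers: `U` points on the hyperplane, `Y` near it, `M` off it -/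
structure Dat (n r U Y M : ℕ) : Prop where
  d1 : ∀ j < r + 1, GG n 4 ((U + j) / (r + 1))
  d2 : ∑ j ∈ Finset.range (r + 1), (NN n 4 - (n * ((U + j) / (r + 1)) + U)) ≤ Y
  d3 : ∀ j < r + 1, (n + 3 - (M + j) / (r + 1)) * (n + 2 - (M + j) / (r + 1)) ≤
    2 * (M - (M + j) / (r + 1))
  d4 : ∀ j < r + 1, ∃ q ≤ (M + j) / (r + 1), (M + j) / (r + 1) ≤ q + 1 ∧
    GG n 3 (q + (Y + (r - j)) / (r + 1)) ∧ q ≤ NN n 2
  d5 : ∑ j ∈ Finset.range (r + 1), (NN (n + 1) 3 - ((n + 1) * ((M + j) / (r + 1)) + M +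
    (n * ((Y + (r - j)) / (r + 1)) + Y))) ≤ U

/-- one double point off the hyperplane, simple points on it, quadrics -/
theorem A_one {n l : ℕ} (hl : l ≤ NN n 2) : SWaux.A n 2 1 l := by
  have h1 : GG (n + 1) 2 1 := WarM.ONE (n + 1) 2 (by norm_num)
  have h2 : GG (n + 1) 1 1 := WarM.ONE (n + 1) 1 le_rfl
  have h3 : War5.KD (n + 1) 1 1 0 := by
    obtain ⟨z, hz⟩ := h2
    refine ⟨z, ?_⟩
    rw [NN_right_one] at hz
    omega
  refine War5.x_AK n 1 1 l 0 h1 h3 ?_
  have h4 := NN_succ n 1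
  rw [NN_right_one] at h4
  norm_num at h4 ⊢
  omega

theorem Dat.NB {n r U Y M : ℕ} (D : Dat n r U Y M) :
    ∃ u y p q : Fin (r + 1) → ℕ, NB n r u y p q ∧ ∑ j, u j + ∑ j, y j + ∑ j, p j = U + Y + M := by
  have sU : ∑ j : Fin (r + 1), (U + (j : ℕ)) / (r + 1) = U := by
    rw [← Finset.sum_range (fun j => (U + j) / (r + 1))]
    exact sum_bal _ (Nat.succ_pos r) _
  have sM : ∑ j : Fin (r + 1), (M + (j : ℕ)) / (r + 1) = M := by
    rw [← Finset.sum_range (fun j => (M + j) / (r + 1))]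
    exact sum_bal _ (Nat.succ_pos r) _
  have sY : ∑ j : Fin (r + 1), (Y + (r - (j : ℕ))) / (r + 1) = Y := by
    rw [← Finset.sum_range (fun j => (Y + (r - j)) / (r + 1))]
    exact sum_balr _ _
  have hc : ∀ j : Fin (r + 1), ∃ q, q ≤ (M + (j : ℕ)) / (r + 1) ∧
      (M + (j : ℕ)) / (r + 1) ≤ q + 1 ∧
      GG n 3 (q + (Y + (r - (j : ℕ))) / (r + 1)) ∧ q ≤ NN n 2 := fun j => by
    obtain ⟨q, h⟩ := D.d4 j j.2
    exact ⟨q, h⟩
  choose q q1 q2 q3 q4 using hc
  refine ⟨fun j => (U + (j : ℕ)) / (r + 1), fun j => (Y + (r - (j : ℕ))) / (r + 1),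
    fun j => (M + (j : ℕ)) / (r + 1), q, ⟨fun j => D.d1 j j.2, ?_, fun j => ?_, q1, q3,
    fun j => ?_, ?_⟩, ?_⟩
  · rw [sU, sY]
    have := D.d2
    rw [Finset.sum_range] at this
    exact this
  · rw [sM]
    exact D.d3 j j.2
  · have a1 := q1 j
    have a2 := q2 j
    rcases Nat.lt_or_ge (q j) ((M + (j : ℕ)) / (r + 1)) with hlt | hge
    · rw [show (M + (j : ℕ)) / (r + 1) - q j = 1 by omega]
      exact A_one (q4 j)
    · rw [show (M + (j : ℕ)) / (r + 1) - q j = 0 by omega]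
      exact SWaux.A_zero (q4 j)
  · rw [sU, sY, sM]
    have := D.d5
    rw [Finset.sum_range] at this
    exact this
  · rw [sU, sY, sM]

end Pool.Agent.WarD
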