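import Pool.Agent.WarD.Stmts2
import Pool.Agent.WarD.DHB
import Pool.Agent.WarS.FEW

/-!
# Simultaneous Waring decompositions (MP_db021c_ag), degree 4, few forms: assembly   (helper27)
-/

set_option autoImplicit false

open Module MvPolynomial
open Pool.Agent.War Pool.Agent.WarS

namespace Pool.Agent.WarD

/-- the numbers for the decoupled step: `u` points on the hyperplane, `y` points near it, `p` points off it;
`q` of the points `p` are specialised to the hyperplane in the scalar lemma -/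
structure NB (n r : ℕ) (u y p q : Fin (r + 1) → ℕ) : Prop where
  hu : ∀ j, GG n 4 (u j)
  ht : ∑ j, (NN n 4 - (n * u j + ∑ i, u i)) ≤ ∑ i, y i
  hq : ∀ j, (n + 3 - p j) * (n + 2 - p j) ≤ 2 * (∑ i, p i - p j)
  h1 : ∀ j, q j ≤ p j
  h2 : ∀ j, GG n 3 (q j + y j)
  h3 : ∀ j, SWaux.A n 2 (p j - q j) (q j)
  hv : ∑ j, (NN (n + 1) 3 - ((n + 1) * p j + ∑ i, p i + (n * y j + ∑ i, y i))) ≤ ∑ i, u i

/-- the conclusion: `h` full points kill -/
def KK (n r h : ℕ) : Prop :=
  ∃ (z : Fin h → Fin (n + 1) → ℂ) (a : Fin h → Fin (r + 1) → ℂ),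
    ∀ f : Fin (r + 1) → MvPolynomial (Fin (n + 1)) ℂ, (∀ j, (f j).totalDegree ≤ 4) →
      (∀ i j, eval (z i) (f j) = 0) →
      (∀ i k, ∑ j, a i j * eval (z i) (pderiv k (f j)) = 0) → ∀ j, f j = 0

theorem KK.mono {n r h h' : ℕ} (H : KK n r h) (hh : h ≤ h') : KK n r h' := by
  obtain ⟨z, a, hz⟩ := H
  refine ⟨fun i => if hi : i.val < h then z ⟨i.val, hi⟩ else 0,
    fun i => if hi : i.val < h then a ⟨i.val, hi⟩ else 0, fun f hf hf0 hf1 => ?_⟩
  refine hz f hf (fun i j => ?_) (fun i k => ?_)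
  · have := hf0 (Fin.castLE hh i) j
    simpa using this
  · have := hf1 (Fin.castLE hh i) k
    simpa using this

/-- from the numbers to the points -/
theorem FEWB (hTRB : S_TRB) (hREB : S_REB) (hSDB : S_SDB) (hQZ : S_QZ) {n r h : ℕ} (hn : 1 ≤ n)
    {u y p q : Fin (r + 1) → ℕ} (H : NB n r u y p q)
    (hh : ∑ j, u j + ∑ j, y j + ∑ j, p j ≤ h) : KK n r h := by
  let I := (j : Fin (r + 1)) × Fin (p j)
  let U := (j : Fin (r + 1)) × Fin (u j)
  let Y := (j : Fin (r + 1)) × Fin (y j)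
  let π : I → Fin (r + 1) := fun i => i.1
  let υ : U → Fin (r + 1) := fun i => i.1
  let τ : Y → Fin (r + 1) := fun i => i.1
  have hπ : ∀ j, fib π j = p j := FEWm.fib_sigma p
  have hυ : ∀ j, fib υ j = u j := FEWm.fib_sigma u
  have hτ : ∀ j, fib τ j = y j := FEWm.fib_sigma y
  have cI : Fintype.card I = ∑ j, p j := by
    rw [Fintype.card_sigma]
    simp
  have cU : Fintype.card U = ∑ j, u j := by
    rw [Fintype.card_sigma]
    simp
  have cY : Fintype.card Y = ∑ j, y j := by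
    rw [Fintype.card_sigma]
    simp
  have T := hTRB n 2 r U Y υ hn (fun j => by rw [hυ]; exact H.hu j) (by
    rw [cU, cY]
    refine le_trans (le_of_eq (Finset.sum_congr rfl fun j _ => ?_)) H.ht
    rw [hυ])
  have Z : ∀ j, Gen ℂ fun w : I → Fin (n + 1) → ℂ =>
      Dbl (n + 1) 2 (Finset.univ.filter fun i => π i = j) w = ⊥ := by
    intro j
    refine hQZ (n + 1) I (Finset.univ.filter fun i => π i = j) (by omega) ?_
    have e : (Finset.univ.filter fun i => π i = j).card = p j := hπ j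
    rw [e, cI]
    exact H.hq j
  have R := hREB n 2 r I U Y π τ
    (fun j => NN (n + 1) 3 - ((n + 1) * p j + ∑ i, p i + (n * y j + ∑ i, y i))) hn Z
    (fun j => by
      have e1 : (Finset.univ.filter fun i => π i = j).card = p j := hπ j
      have e2 : (Finset.univ.filter fun i => τ i = j).card = y j := hτ j
      have := hSDB n 2 (q j) I Y (Finset.univ.filter fun i => π i = j)
        (Finset.univ.filter fun i => τ i = j) hn (by rw [e1]; exact H.h1 j)
        (by rw [e2]; exact H.h2 j) (by rw [e1]; exact H.h3 j) (Z j)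
      rw [e1, e2, cI, cY] at this
      exact this)
    (by rw [cU]; exact H.hv)
  have O : Gen ℂ fun z : I → Fin (n + 1) → ℂ => ∀ i, z i 0 ≠ 0 := gen_off
  have T' := T.comp (LinearMap.snd ℂ ((I → Fin (n + 1) → ℂ) × (I → Fin (r + 1) → ℂ))
    ((U → Fin n → ℂ) × (U → Fin (r + 1) → ℂ) × (Y → Fin n → ℂ) × (Y → Fin (r + 1) → ℂ)))
    Prod.snd_surjective
  have O' := (O.comp (LinearMap.fst ℂ (I → Fin (n + 1) → ℂ) (I → Fin (r + 1) → ℂ))
    Prod.fst_surjective).comp (LinearMap.fst ℂ ((I → Fin (n + 1) → ℂ) × (I → Fin (r + 1) → ℂ))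
    ((U → Fin n → ℂ) × (U → Fin (r + 1) → ℂ) × (Y → Fin n → ℂ) × (Y → Fin (r + 1) → ℂ)))
    Prod.fst_surjective
  obtain ⟨⟨⟨w, b⟩, z, a, yy, α⟩, ⟨hR, hT⟩, hO⟩ := ((R.and T').and O').exists
  obtain ⟨t, ht⟩ := x_DHB n 2 r I U Y w b z a yy α hO hT hR
  -- all points
  let S := I ⊕ (U ⊕ Y)
  have hS : Fintype.card S = ∑ j, u j + ∑ j, y j + ∑ j, p j := by
    simp only [S, Fintype.card_sum]
    rw [cI, cU, cY]
    ring
  refine KK.mono ?_ hh
  let e : S ≃ Fin (∑ j, u j + ∑ j, y j + ∑ j, p j) := Fintype.equivFinOfCardEq hS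
  let Z : S → Fin (n + 1) → ℂ := Sum.elim w (Sum.elim (fun i => hp (z i))
    (fun i => Fin.cons t (yy i)))
  let A : S → Fin (r + 1) → ℂ := Sum.elim b (Sum.elim a α)
  refine ⟨fun i => Z (e.symm i), fun i => A (e.symm i), fun f hf hf0 hf1 => ?_⟩
  have k0 : ∀ x : S, ∀ j, eval (Z x) (f j) = 0 := fun x j => by
    have := hf0 (e x) j
    simpa only [Equiv.symm_apply_apply] using this
  have k1 : ∀ x : S, ∀ k, ∑ j, A x j * eval (Z x) (pderiv k (f j)) = 0 := fun x k => by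
    have := hf1 (e x) k
    simpa only [Equiv.symm_apply_apply] using this
  exact ht f hf (fun i j => k0 (Sum.inl i) j) (fun i k => k1 (Sum.inl i) k)
    (fun i j => k0 (Sum.inr (Sum.inl i)) j) (fun i k => k1 (Sum.inr (Sum.inl i)) k)
    (fun i j => k0 (Sum.inr (Sum.inr i)) j) (fun i k => k1 (Sum.inr (Sum.inr i)) k)

end Pool.Agent.WarD
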