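import Pool.Agent.WarD.NumG
import Pool.Agent.War5.Few

/-!
# Simultaneous Waring decompositions (MP_db021c_ag), degree 4, few forms: the small cases   (helper27)
-/

set_option autoImplicit false

open Module MvPolynomial
open Pool.Agent.War Pool.Agent.WarS

namespace Pool.Agent.WarD

namespace NumF

def c2 (n : ℕ) : ℕ := (n + 1) * (n + 2) / 2
def c3 (n : ℕ) : ℕ := (n + 1) * (n + 2) * (n + 3) / 6
def c4 (n : ℕ) : ℕ := (n + 1) * (n + 2) * (n + 3) * (n + 4) / 24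

theorem c2_eq (n : ℕ) : NN n 2 = c2 n := by
  have := WarM.NNb_two n
  unfold c2
  rw [show (n + 1) * (n + 2) = 2 * NN n 2 by rw [this]; ring]
  omega

theorem c3_eq (n : ℕ) : NN n 3 = c3 n := by
  have := WarM.NNb_three n
  unfold c3
  rw [show (n + 1) * (n + 2) * (n + 3) = 6 * NN n 3 by rw [this]; ring]
  omega

theorem c4_eq (n : ℕ) : NN n 4 = c4 n := by
  have := WarM.NNb_four n
  unfold c4
  rw [show (n + 1) * (n + 2) * (n + 3) * (n + 4) = 24 * NN n 4 by rw [this]; ring]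
  omega

/-- cubics -/
def cC (n p : ℕ) : Bool :=
  decide ((n + 1) * (p + 1) ≤ c3 n) || (!decide ((n + 1) % 3 = 2) && decide ((n + 1) * p ≤ c3 n))

theorem GG_of_cC {n p : ℕ} (h : cC n p = true) : GG n 3 p := by
  refine WarM.CUBIC n p ?_
  rw [c3_eq]
  simpa [cC] using h

/-- the conditions at `j` -/
def cj (n U Y M p y : ℕ) : Bool :=
  decide ((n + 3 - p) * (n + 2 - p) ≤ 2 * (M - p)) &&
  ((cC n (p + y) && decide (p ≤ c2 n)) ||
    (decide (1 ≤ p) && (cC n (p - 1 + y) && decide (p - 1 ≤ c2 n))))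

/-- all the conditions -/
def chk (n r U Y M : ℕ) : Bool :=
  decide ((n + 2) * ((U + r) / (r + 1)) ≤ c4 n) &&
  (decide (∑ j ∈ Finset.range (r + 1), (c4 n - (n * ((U + j) / (r + 1)) + U)) ≤ Y) &&
  (decide (∀ j < r + 1, cj n U Y M ((M + j) / (r + 1)) ((Y + (r - j)) / (r + 1)) = true) &&
  (decide (∑ j ∈ Finset.range (r + 1), (c3 (n + 1) - ((n + 1) * ((M + j) / (r + 1)) + M +
    (n * ((Y + (r - j)) / (r + 1)) + Y))) ≤ U) &&
  decide ((n + r + 2) * (U + Y + M) ≤ (r + 1) * c4 (n + 1) + (n + r + 1)))))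

theorem dat_of_chk {n r U Y M : ℕ} (hn : 1 ≤ n) (h : chk n r U Y M = true) :
    Dat n r U Y M ∧ ∀ h, (r + 1) * NN (n + 1) 4 ≤ (n + r + 2) * h → U + Y + M ≤ h := by
  unfold chk at h
  simp only [Bool.and_eq_true, decide_eq_true_eq] at h
  obtain ⟨h1, h2, h3, h4, h5⟩ := h
  refine ⟨⟨fun j hj => ?_, ?_, fun j hj => ?_, fun j hj => ?_, ?_⟩, fun h hh => ?_⟩
  · refine x_Q4 n _ hn ?_
    rw [c4_eq]
    refine le_trans (Nat.mul_le_mul_left _ (Nat.div_le_div_right ?_)) h1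
    omega
  · rw [c4_eq]
    exact h2
  · have := h3 j hj
    unfold cj at this
    simp only [Bool.and_eq_true, decide_eq_true_eq] at this
    exact this.1
  · have := h3 j hj
    unfold cj at this
    simp only [Bool.and_eq_true, Bool.or_eq_true, decide_eq_true_eq] at this
    rw [c2_eq]
    rcases this.2 with ⟨a1, a2⟩ | ⟨a1, a2, a3⟩
    · exact ⟨_, le_rfl, Nat.le_succ _, GG_of_cC a1, a2⟩
    · exact ⟨(M + j) / (r + 1) - 1, Nat.sub_le _ _, by omega, GG_of_cC a2, a3⟩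
  · rw [c3_eq]
    exact h4
  · rw [c4_eq] at hh
    by_contra hc
    push Not at hc
    have : (n + r + 2) * (h + 1) ≤ (n + r + 2) * (U + Y + M) := Nat.mul_le_mul_left _ hc
    rw [Nat.mul_add, mul_one] at this
    omega

/-- symmetric choice -/
def symm (n r : ℕ) : Bool :=
  chk n r ((r + 1) * (c4 n / (n + r + 1))) ((r + 1) * (c4 n % (n + r + 1)))
    (((r + 1) * c4 (n + 1) + (n + r + 1)) / (n + r + 2) -
      (r + 1) * (c4 n / (n + r + 1)) - (r + 1) * (c4 n % (n + r + 1)))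

def tab : List (ℕ × ℕ × ℕ × ℕ × ℕ) := [(3, 2, 17, 3, 10), (4, 3, 34, 8, 14), (4, 4, 38, 8, 17),
  (5, 2, 46, 10, 14), (5, 4, 63, 6, 27), (6, 5, 105, 9, 39), (7, 6, 162, 42, 27), (8, 7, 248, 0, 89),
  (9, 6, 312, 21, 80), (9, 8, 357, 21, 97), (9, 9, 375, 35, 91), (10, 6, 411, 20, 100),
  (10, 8, 473, 32, 110), (10, 10, 522, 54, 107), (11, 7, 573, 33, 122), (12, 11, 909, 33, 201),
  (12, 12, 944, 60, 186), (16, 16, 2494, 75, 424)]

theorem tab_ok : ∀ x ∈ tab, chk x.1 x.2.1 x.2.2.1 x.2.2.2.1 x.2.2.2.2 = true := by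
  decide +kernel

def exc (n r : ℕ) : Bool := (n == 1 && r == 1) || ((n == 2 && r == 1) || ((n == 4 && r == 1) ||
  (n == 5 && r == 5)))

theorem all_ok : ∀ n < 39, ∀ r < n + 1, r = 0 ∨ n = 0 ∨ exc n r = true ∨ symm n r = true ∨
    ∃ x ∈ tab, x.1 = n ∧ x.2.1 = r := by
  decide +kernel

end NumF

end Pool.Agent.WarD
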