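import Pool.Agent.WarD.Dat
import Pool.Agent.WarD.Q4

/-!
# Simultaneous Waring decompositions (MP_db021c_ag), degree 4, few forms: the numbers   (helper27)
-/

set_option autoImplicit false

open Module MvPolynomial
open Pool.Agent.War Pool.Agent.WarS

namespace Pool.Agent.WarD

namespace NumG

theorem ineq1 (m t : ℤ) (hm : 40 ≤ m) (ht1 : m + 2 ≤ t) (ht2 : t ≤ 2 * m) :
    24 * (t * (t - 2) ^ 2) + 24 * (t * (t - 1) * (m + 1)) ≤
      (m + 1) * (m + 2) * (m + 3) * (4 * t - m - 4) := by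
  obtain ⟨a, rfl⟩ : ∃ a, t = m + 2 + a := ⟨t - m - 2, by ring⟩
  have ha : 0 ≤ a := by linarith
  have ha2 : a ≤ m := by linarith
  have h1 : a * a ≤ m * a := mul_le_mul_of_nonneg_right ha2 ha
  -- the right side, linear in `a`
  have h2 : 24 * ((m + 2 + a) * (m + 2 + a - 2) ^ 2) +
      24 * ((m + 2 + a) * (m + 2 + a - 1) * (m + 1)) ≤
      24 * ((m + 2) * (2 * m ^ 2 + 2 * m + 1) + a * (10 * m ^ 2 + 12 * m + 3)) := by
    have e : (m + 2) * (2 * m ^ 2 + 2 * m + 1) + a * (10 * m ^ 2 + 12 * m + 3) -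
        ((m + 2 + a) * (m + 2 + a - 2) ^ 2 + (m + 2 + a) * (m + 2 + a - 1) * (m + 1)) =
        (m * a - a * a) * (5 * m + 3 + a) := by ring
    have : 0 ≤ (m * a - a * a) * (5 * m + 3 + a) :=
      mul_nonneg (by linarith) (by linarith)
    linarith
  refine h2.trans ?_
  have f0 : 24 * ((m + 2) * (2 * m ^ 2 + 2 * m + 1)) ≤ (m + 1) * (m + 2) * (m + 3) * (3 * m + 4) := by
    nlinarith [mul_nonneg (by linarith : (0 : ℤ) ≤ m - 40) (by positivity : (0 : ℤ) ≤ m ^ 3 + m ^ 2)]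
  have f1 : 24 * ((m + 2) * (2 * m ^ 2 + 2 * m + 1) + m * (10 * m ^ 2 + 12 * m + 3)) ≤
      (m + 1) * (m + 2) * (m + 3) * (7 * m + 4) := by
    nlinarith [mul_nonneg (by linarith : (0 : ℤ) ≤ m - 40) (by positivity : (0 : ℤ) ≤ m ^ 3 + m ^ 2)]
  have f2 : m * (24 * ((m + 2) * (2 * m ^ 2 + 2 * m + 1) + a * (10 * m ^ 2 + 12 * m + 3))) ≤
      m * ((m + 1) * (m + 2) * (m + 3) * (4 * (m + 2 + a) - m - 4)) := by
    have g0 := mul_le_mul_of_nonneg_left f0 (by linarith : (0 : ℤ) ≤ m - a)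
    have g1 := mul_le_mul_of_nonneg_left f1 ha
    have e1 : m * (24 * ((m + 2) * (2 * m ^ 2 + 2 * m + 1) + a * (10 * m ^ 2 + 12 * m + 3))) =
      (m - a) * (24 * ((m + 2) * (2 * m ^ 2 + 2 * m + 1))) +
      a * (24 * ((m + 2) * (2 * m ^ 2 + 2 * m + 1) + m * (10 * m ^ 2 + 12 * m + 3))) := by ring
    have e2 : m * ((m + 1) * (m + 2) * (m + 3) * (4 * (m + 2 + a) - m - 4)) =
      (m - a) * ((m + 1) * (m + 2) * (m + 3) * (3 * m + 4)) +
      a * ((m + 1) * (m + 2) * (m + 3) * (7 * m + 4)) := by ring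
    rw [e1, e2]
    exact add_le_add g0 g1
  exact le_of_mul_le_mul_left f2 (by linarith)

theorem ineq2 (m t : ℤ) (hm : 40 ≤ m) (ht1 : m + 2 ≤ t) :
    (m + 1) * (m + 2) * (m + 3) * (4 * t - m - 4) + 72 * t ^ 2 ≤
      4 * (t * (t - 1) * ((m + 1) * (m + 2))) := by
  have h1 : (m + 3) * (4 * t - m - 4) ≤ 3 * t ^ 2 + t - 2 := by
    obtain ⟨a, rfl⟩ : ∃ a, t = m + 2 + a := ⟨t - m - 2, by ring⟩
    have ha : 0 ≤ a := by linarith
    nlinarith [mul_nonneg ha (by linarith : (0 : ℤ) ≤ m), mul_nonneg ha ha]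
  have h2 : 0 ≤ (m + 1) * (m + 2) := mul_nonneg (by linarith) (by linarith)
  have h3 := mul_le_mul_of_nonneg_left h1 h2
  have h4 : 72 * t ^ 2 ≤ (m + 1) * (m + 2) * (t ^ 2 - 5 * t + 2) := by
    have h5 : 0 ≤ t ^ 2 - 5 * t + 2 := by nlinarith
    have h6 : (1600 : ℤ) ≤ (m + 1) * (m + 2) := by nlinarith
    have h7 := mul_le_mul_of_nonneg_right h6 h5
    nlinarith
  nlinarith

theorem core (m s w y h M0 N σ : ℤ) (hm : 40 ≤ m) (hs : 2 ≤ s) (hsm : s ≤ m)
    (e1 : 24 * M0 = m * (m + 1) * (m + 2) * (m + 3))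
    (e2 : 24 * N = (m + 1) * (m + 2) * (m + 3) * (m + 4))
    (e3 : M0 = (m + s - 1) * w + y) (hy : 0 ≤ y) (hy' : y ≤ m + s - 2)
    (e4 : (m + s) * h = s * N + σ) (hσ : 0 ≤ σ) (hσ' : σ ≤ m + s - 1) :
    s * (m + 1) ≤ h - s * w - s * y ∧ 6 * (h - s * w + 2 * s - 1) ≤ s * ((m + 1) * (m + 2)) ∧
      m + 1 ≤ w := by
  obtain ⟨t, ht⟩ : ∃ t, t = m + s := ⟨_, rfl⟩
  have ht1 : m + 2 ≤ t := by linarith
  have ht2 : t ≤ 2 * m := by linarith
  have tp : 0 < t := by linarith
  have tp1 : 0 < t - 1 := by linarith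
  have tpp : 0 < t * (t - 1) := mul_pos tp tp1
  have e3' : (t - 1) * w = M0 - y := by rw [ht]; linarith
  have e4' : t * h = s * N + σ := by rw [ht]; exact e4
  have hy'' : y ≤ t - 2 := by linarith
  have hσ'' : σ ≤ t - 1 := by linarith
  have G : 24 * ((t - 1) * N - t * M0) = (m + 1) * (m + 2) * (m + 3) * (4 * t - m - 4) := by
    have : 24 * ((t - 1) * N - t * M0) = (t - 1) * (24 * N) - t * (24 * M0) := by ring
    rw [this, e1, e2]
    ring
  have K : t * (t - 1) * (h - s * w) = s * ((t - 1) * N - t * M0) + (t - 1) * σ + s * t * y := by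
    calc t * (t - 1) * (h - s * w) = (t - 1) * (t * h) - s * t * ((t - 1) * w) := by ring
      _ = _ := by rw [e3', e4']; ring
  have i1 := ineq1 m t hm ht1 ht2
  have i2 := ineq2 m t hm ht1
  have hsp : 0 ≤ s := by linarith
  refine ⟨?_, ?_, ?_⟩
  · refine le_of_mul_le_mul_left (a := 24 * (t * (t - 1))) ?_ (by linarith)
    have a1 : 24 * (t * (t - 1)) * (h - s * w - s * y) =
        s * (24 * ((t - 1) * N - t * M0)) + 24 * ((t - 1) * σ) - 24 * (s * (t * (t - 2)) * y) := by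
      calc _ = 24 * (t * (t - 1) * (h - s * w)) - 24 * (t * (t - 1)) * (s * y) := by ring
        _ = _ := by rw [K]; ring
    have a2 : 0 ≤ (t - 1) * σ := mul_nonneg tp1.le hσ
    have a3 : s * (t * (t - 2)) * y ≤ s * (t * (t - 2)) * (t - 2) :=
      mul_le_mul_of_nonneg_left hy'' (mul_nonneg hsp (mul_nonneg tp.le (by linarith)))
    have a4 := mul_le_mul_of_nonneg_left i1 hsp
    rw [a1, G]
    nlinarith
  · refine le_of_mul_le_mul_left (a := 4 * (t * (t - 1))) ?_ (by linarith)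
    have a1 : 24 * (t * (t - 1) * (h - s * w)) =
        s * (24 * ((t - 1) * N - t * M0)) + 24 * ((t - 1) * σ) + 24 * (s * t * y) := by
      rw [K]; ring
    have a2 : (t - 1) * σ ≤ (t - 1) * (t - 1) := mul_le_mul_of_nonneg_left hσ'' tp1.le
    have a3 : s * t * y ≤ s * t * (t - 2) :=
      mul_le_mul_of_nonneg_left hy'' (mul_nonneg hsp tp.le)
    have a4 := mul_le_mul_of_nonneg_left i2 hsp
    have a5 : (t - 1) * (t - 1) + s * t * (t - 2) + t * (t - 1) * (2 * s - 1) ≤ 3 * (s * t ^ 2) := by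
      nlinarith [mul_nonneg hsp tp.le, mul_nonneg hsp tpp.le]
    rw [G] at a1
    nlinarith
  · by_contra hc
    push Not at hc
    have h1 : w ≤ m := by linarith
    have h2 : (t - 1) * w ≤ (t - 1) * m := mul_le_mul_of_nonneg_left h1 tp1.le
    have h3 : M0 ≤ (t - 1) * m + (t - 2) := by linarith
    have h4 : 24 * M0 ≤ 24 * ((2 * m) * m + 2 * m) := by nlinarith
    rw [e1] at h4
    nlinarith [mul_nonneg (by linarith : (0 : ℤ) ≤ m - 40) (by positivity : (0 : ℤ) ≤ m ^ 3 + m ^ 2 + m)]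

theorem div_const {s a j : ℕ} (hj : j < s) : (s * a + j) / s = a := by
  rw [Nat.mul_add_div (by omega), Nat.div_eq_of_lt hj, add_zero]

/-- the general case -/
theorem gen (hQ4 : S_Q4) (n r : ℕ) (hn : 39 ≤ n) (hr : 1 ≤ r) (hrn : r ≤ n) :
    ∃ U Y M, Dat n r U Y M ∧ ∀ h, (r + 1) * NN (n + 1) 4 ≤ (n + r + 2) * h → U + Y + M ≤ h := by
  have N4 := WarM.NNb_four n
  have N4' := WarM.NNb_four (n + 1)
  have N3 := WarM.NNb_three n
  have N2 := WarM.NNb_two n
  have hP := NN_succ n 3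
  norm_num at hP
  -- quotient and remainder
  obtain ⟨w, y, hwy, hy⟩ : ∃ w y, NN n 4 = (n + r + 1) * w + y ∧ y ≤ n + r :=
    ⟨NN n 4 / (n + r + 1), NN n 4 % (n + r + 1), (Nat.div_add_mod _ _).symm,
      Nat.le_of_lt_succ (Nat.mod_lt _ (by omega))⟩
  set D := n + r + 2 with hD
  have hDp : 0 < D := by omega
  set B := (r + 1) * NN (n + 1) 4 with hB
  set h0 := (B + (D - 1)) / D with hh0
  have a1 : B ≤ D * h0 := by
    have := Nat.lt_mul_div_succ (B + (D - 1)) hDp
    rw [← hh0, Nat.mul_add, mul_one] at this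
    omega
  have a2 : D * h0 ≤ B + (D - 1) := by rw [hh0]; exact Nat.mul_div_le _ _
  obtain ⟨σ, hσ⟩ : ∃ σ, D * h0 = B + σ := ⟨D * h0 - B, by omega⟩
  have hσ' : σ ≤ D - 1 := by omega
  obtain ⟨c1, c2, c3⟩ := core (n + 1) (r + 1) w y h0 (NN n 4) (NN (n + 1) 4) σ
    (by omega) (by omega) (by omega)
    (by have := congrArg (fun x : ℕ => (x : ℤ)) N4
        push_cast at this ⊢
        linear_combination this)
    (by have := congrArg (fun x : ℕ => (x : ℤ)) N4'
        push_cast at this ⊢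
        linear_combination this)
    (by have := congrArg (fun x : ℕ => (x : ℤ)) hwy
        push_cast at this ⊢
        linear_combination this)
    (by omega) (by omega)
    (by have := congrArg (fun x : ℕ => (x : ℤ)) hσ
        rw [hB, hD] at this
        push_cast at this ⊢
        linear_combination this)
    (by omega) (by omega)
  -- the number of the points off the hyperplane
  obtain ⟨M, hM⟩ : ∃ M, h0 = (r + 1) * w + (r + 1) * y + M := by
    refine ⟨h0 - ((r + 1) * w + (r + 1) * y), ?_⟩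
    have : (r + 1) * w + (r + 1) * y ≤ h0 := by
      zify
      nlinarith
    omega
  have c1' : (r + 1) * (n + 2) ≤ M := by
    zify at hM ⊢
    rw [hM] at c1
    linarith
  have c2' : 6 * (M + (r + 1) * y + 2 * r + 1) ≤ (r + 1) * ((n + 2) * (n + 3)) := by
    zify at hM ⊢
    rw [hM] at c2
    linarith
  have c3' : n + 2 ≤ w := by
    zify
    linarith
  -- the numbers `p`
  have p1 : ∀ j < r + 1, (r + 1) * ((M + j) / (r + 1)) ≤ M + r := fun j hj =>
    (Nat.mul_div_le _ _).trans (by omega)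
  have p2 : ∀ j < r + 1, n + 2 ≤ (M + j) / (r + 1) := fun j hj =>
    (Nat.le_div_iff_mul_le (by omega)).2 (by nlinarith)
  have p3 : ∀ j < r + 1, 6 * ((M + j) / (r + 1) + y + 1) ≤ (n + 2) * (n + 3) := fun j hj => by
    have := p1 j hj
    refine Nat.le_of_mul_le_mul_left (c := r + 1) ?_ (by omega)
    nlinarith
  have yc : ∀ j < r + 1, ((r + 1) * y + (r - j)) / (r + 1) = y := fun j hj =>
    div_const (by omega)
  have wc : ∀ j < r + 1, ((r + 1) * w + j) / (r + 1) = w := fun j hj => div_const hj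
  have key : (r + 1) * NN (n + 1) 3 + σ = (n + r + 2) * M + (r + 1) * ((n + r + 1) * y) +
      (r + 1) * w := by
    have h1 : (r + 1) * NN (n + 1) 4 + σ = (n + r + 2) * ((r + 1) * w + (r + 1) * y + M) := by
      rw [← hM]
      exact hσ.symm
    rw [hP, hwy] at h1
    zify at h1 ⊢
    linear_combination h1
  have v0 : ∀ j < r + 1, (n + 1) * ((M + j) / (r + 1)) + M + (n * y + (r + 1) * y) ≤
      NN (n + 1) 3 := fun j hj => by
    have b1 := p1 j hj
    refine Nat.le_of_mul_le_mul_left (c := r + 1) ?_ (by omega)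
    have b2 : (n + 1) * ((r + 1) * ((M + j) / (r + 1))) ≤ (n + 1) * (M + r) :=
      Nat.mul_le_mul_left _ b1
    have b3 : (r + 1) * (n + 2) ≤ (r + 1) * w := Nat.mul_le_mul_left _ c3'
    have b4 : (r + 1) * ((n + 1) * ((M + j) / (r + 1)) + M + (n * y + (r + 1) * y)) =
      (n + 1) * ((r + 1) * ((M + j) / (r + 1))) + (r + 1) * M + (r + 1) * ((n + r + 1) * y) := by
      ring
    rw [b4]
    have b5 : σ + (n + 1) * r ≤ (r + 1) * (n + 2) := by
      have : σ ≤ n + r + 1 := by omega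
      nlinarith
    nlinarith
  refine ⟨(r + 1) * w, (r + 1) * y, M, ⟨fun j hj => ?_, ?_, fun j hj => ?_, fun j hj => ?_, ?_⟩,
    fun h hh => ?_⟩
  · rw [wc j hj]
    refine hQ4 n w (by omega) ?_
    rw [hwy]
    nlinarith
  · have : ∀ j ∈ Finset.range (r + 1), (NN n 4 - (n * (((r + 1) * w + j) / (r + 1)) + (r + 1) * w)) =
        y := fun j hj => by
      rw [wc j (Finset.mem_range.1 hj), hwy]
      have : (n + r + 1) * w = n * w + (r + 1) * w := by ring
      omega
    rw [Finset.sum_congr rfl this, Finset.sum_const, Finset.card_range, smul_eq_mul]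
  · have := p2 j hj
    rw [show n + 2 - (M + j) / (r + 1) = 0 by omega, mul_zero]
    exact Nat.zero_le _
  · refine ⟨(M + j) / (r + 1), le_rfl, by omega, ?_, ?_⟩
    · rw [yc j hj]
      refine WarM.CUBIC n _ (Or.inl ?_)
      have := p3 j hj
      refine Nat.le_of_mul_le_mul_left (c := 6) ?_ (by norm_num)
      rw [N3]
      nlinarith
    · have := p3 j hj
      refine Nat.le_of_mul_le_mul_left (c := 2) ?_ (by norm_num)
      rw [N2]
      nlinarith
  · have hs : ∑ j ∈ Finset.range (r + 1), (NN (n + 1) 3 - ((n + 1) * ((M + j) / (r + 1)) + M +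
        (n * (((r + 1) * y + (r - j)) / (r + 1)) + (r + 1) * y))) +
        ∑ j ∈ Finset.range (r + 1), ((n + 1) * ((M + j) / (r + 1)) + M +
        (n * y + (r + 1) * y)) = (r + 1) * NN (n + 1) 3 := by
      rw [← Finset.sum_add_distrib]
      rw [Finset.sum_congr rfl (g := fun _ => NN (n + 1) 3) fun j hj => by
        rw [yc j (Finset.mem_range.1 hj)]
        have := v0 j (Finset.mem_range.1 hj)
        omega]
      rw [Finset.sum_const, Finset.card_range, smul_eq_mul]
    have hs2 : ∑ j ∈ Finset.range (r + 1), ((n + 1) * ((M + j) / (r + 1)) + M +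
        (n * y + (r + 1) * y)) = (n + r + 2) * M + (r + 1) * ((n + r + 1) * y) := by
      rw [Finset.sum_add_distrib, Finset.sum_add_distrib, ← Finset.mul_sum,
        sum_bal (r + 1) (Nat.succ_pos r) M, Finset.sum_const, Finset.sum_const, Finset.card_range,
        smul_eq_mul, smul_eq_mul]
      ring
    omega
  · have : h0 ≤ h := by
      by_contra hc
      push Not at hc
      have : D * (h + 1) ≤ D * h0 := Nat.mul_le_mul_left _ hc
      rw [Nat.mul_add, mul_one] at this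
      omega
    omega

end NumG

end Pool.Agent.WarD
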