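import Pool.Agent.WarS.SW

/-!
# Simultaneous Waring decompositions (MP_db021c_ag): decoupled differential Horace step   (helper27)

The idea is due to helper25. The number of affine variables is `n + 1` (hyperplane `x₀ = 0`), the number
of forms `r + 1`, the degree `d + 2`. Points: `(w i, b i)` off the hyperplane, `(z i, a i)` on the
hyperplane, `((t, y i), α i)` near the hyperplane. For `t → 0` the trace system for
`ρ ∈ (Pol n (d+2))^(r+1)` and the residual system for `g ∈ (Pol (n+1) (d+1))^(r+1)` decouple.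
-/

set_option autoImplicit false

open Module MvPolynomial
open Pool.Agent.War Pool.Agent.WarS

namespace Pool.Agent.WarD

/-- trace system -/
def TrB (d : ℕ) {n r : ℕ} {U Y : Type} (z : U → Fin n → ℂ) (a : U → Fin (r + 1) → ℂ)
    (y : Y → Fin n → ℂ) (α : Y → Fin (r + 1) → ℂ) : Prop :=
  ∀ f : Fin (r + 1) → MvPolynomial (Fin n) ℂ, (∀ j, (f j).totalDegree ≤ d + 2) →
    (∀ i j, eval (z i) (f j) = 0) → (∀ i k, ∑ j, a i j * eval (z i) (pderiv k (f j)) = 0) →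
    (∀ i, ∑ j, α i j * eval (y i) (f j) = 0) → ∀ j, f j = 0

/-- residual system -/
def ReB (d : ℕ) {n r : ℕ} {I U Y : Type} (w : I → Fin (n + 1) → ℂ) (b : I → Fin (r + 1) → ℂ)
    (z : U → Fin n → ℂ) (a : U → Fin (r + 1) → ℂ) (y : Y → Fin n → ℂ)
    (α : Y → Fin (r + 1) → ℂ) : Prop :=
  ∀ g : Fin (r + 1) → MvPolynomial (Fin (n + 1)) ℂ, (∀ j, (g j).totalDegree ≤ d + 1) →
    (∀ i j, eval (w i) (g j) = 0) → (∀ i k, ∑ j, b i j * eval (w i) (pderiv k (g j)) = 0) →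
    (∀ i, ∑ j, a i j * eval (hp (z i)) (g j) = 0) →
    (∀ i j, eval (hp (y i)) (g j) = 0) →
    (∀ i (k : Fin n), ∑ j, α i j * eval (hp (y i)) (pderiv k.succ (g j)) = 0) → ∀ j, g j = 0

/-- the full points kill -/
def KiB (d : ℕ) {n r : ℕ} {I U Y : Type} (w : I → Fin (n + 1) → ℂ) (b : I → Fin (r + 1) → ℂ)
    (z : U → Fin n → ℂ) (a : U → Fin (r + 1) → ℂ) (y : Y → Fin n → ℂ)
    (α : Y → Fin (r + 1) → ℂ) (t : ℂ) : Prop :=
  ∀ f : Fin (r + 1) → MvPolynomial (Fin (n + 1)) ℂ, (∀ j, (f j).totalDegree ≤ d + 2) →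
    (∀ i j, eval (w i) (f j) = 0) → (∀ i k, ∑ j, b i j * eval (w i) (pderiv k (f j)) = 0) →
    (∀ i j, eval (hp (z i)) (f j) = 0) →
    (∀ i k, ∑ j, a i j * eval (hp (z i)) (pderiv k (f j)) = 0) →
    (∀ i j, eval (Fin.cons t (y i) : Fin (n + 1) → ℂ) (f j) = 0) →
    (∀ i k, ∑ j, α i j * eval (Fin.cons t (y i) : Fin (n + 1) → ℂ) (pderiv k (f j)) = 0) →
    ∀ j, f j = 0

/-- DHB. For `t ≠ 0` write `f = t ρ + x₀ g`. Near points: `ρ_j(y) + g_j(t,y) = 0` for all `j`,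
`∑ α_j (∂_k ρ_j(y) + ∂_k g_j(t,y)) = 0`, `∑ α_j (g_j(t,y) + t ∂_0 g_j(t,y)) = 0`. At `t = 0`:
`∑ α_j ρ_j(y) = 0`, so `ρ = 0` by the trace system, then `g = 0` by the residual system. -/
def S_DHB : Prop := ∀ (n d r : ℕ) (I U Y : Type) [Finite I] [Finite U] [Finite Y]
  (w : I → Fin (n + 1) → ℂ) (b : I → Fin (r + 1) → ℂ) (z : U → Fin n → ℂ)
  (a : U → Fin (r + 1) → ℂ) (y : Y → Fin n → ℂ) (α : Y → Fin (r + 1) → ℂ), (∀ i, w i 0 ≠ 0) →
  TrB d z a y α → ReB d w b z a y α → ∃ t : ℂ, KiB d w b z a y α t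

/-- number of the points of type `j` -/
abbrev fb {I : Type} [Fintype I] {s : ℕ} (π : I → Fin s) (j : Fin s) : ℕ := fib π j

/-- TRB. At pure vectors `a i = e_(υ i)` the solutions of the conditions at the points `z i` form the space
`∏ Dbl n (d+2) {υ = j} z`, of dimension `≤ ∑_j (NN n (d+2) - (n u_j + U))` (`S_SG`); the functionals
`f ↦ ∑ α_j f_j(y)` separate, so `Y` general ones kill it (`red`). Then `PK.gen_bot`. -/
def S_TRB : Prop := ∀ (n d r : ℕ) (U Y : Type) [Fintype U] [Fintype Y] (υ : U → Fin (r + 1)),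
  1 ≤ n → (∀ j, GG n (d + 2) (fib υ j)) →
  ∑ j, (NN n (d + 2) - (n * fib υ j + Fintype.card U)) ≤ Fintype.card Y →
  Gen ℂ fun x : (U → Fin n → ℂ) × (U → Fin (r + 1) → ℂ) × (Y → Fin n → ℂ) ×
      (Y → Fin (r + 1) → ℂ) => TrB d x.1 x.2.1 x.2.2.1 x.2.2.2

/-- HD for one form: double at `w i`, `i ∈ P`, simple at the other `w i`, double along the hyperplane at
`y i`, `i ∈ R`, simple at the other `y i`. -/
noncomputable def DbS (n d : ℕ) {I Y : Type} (P : Finset I) (w : I → Fin (n + 1) → ℂ)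
    (R : Finset Y) (y : Y → Fin n → ℂ) : Submodule ℂ (Pol (n + 1) d) :=
  Dbl (n + 1) d P w ⊓ (Dbl n d R y).comap (resL n d)

/-- REB. At pure vectors `b i = e_(π i)`, `α i = e_(τ i)`: the solutions of all the conditions except those at the
points `z i` form the space `V = ∏_j DbS n (d+1) {π = j} w {τ = j} y`; no nonzero element of `V` vanishes on the
hyperplane (nothing in degree `d`), so the functionals `g ↦ ∑ a_j g_j(hp z)` separate it, and `U` general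
ones kill it (`red`). Then `PK.gen_bot`. -/
def S_REB : Prop := ∀ (n d r : ℕ) (I U Y : Type) [Fintype I] [Fintype U] [Fintype Y]
  (π : I → Fin (r + 1)) (τ : Y → Fin (r + 1)) (v : Fin (r + 1) → ℕ), 1 ≤ n →
  (∀ j, Gen ℂ fun w : I → Fin (n + 1) → ℂ =>
    Dbl (n + 1) d (Finset.univ.filter fun i => π i = j) w = ⊥) →
  (∀ j, Gen ℂ fun x : (I → Fin (n + 1) → ℂ) × (Y → Fin n → ℂ) =>
    finrank ℂ (DbS n (d + 1) (Finset.univ.filter fun i => π i = j) x.1
      (Finset.univ.filter fun i => τ i = j) x.2) ≤ v j) →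
  ∑ j, v j ≤ Fintype.card U →
  Gen ℂ fun x : ((I → Fin (n + 1) → ℂ) × (I → Fin (r + 1) → ℂ)) × (U → Fin n → ℂ) ×
      (U → Fin (r + 1) → ℂ) × (Y → Fin n → ℂ) × (Y → Fin (r + 1) → ℂ) =>
    ReB d x.1.1 x.1.2 x.2.1 x.2.2.1 x.2.2.2.1 x.2.2.2.2

/-- SDB. One form. `u` of the double points go to the hyperplane (as in `S_HD5` of War5). -/
def S_SDB : Prop := ∀ (n d u : ℕ) (I Y : Type) [Fintype I] [Fintype Y] (P : Finset I)
  (R : Finset Y), 1 ≤ n → u ≤ P.card → GG n (d + 1) (u + R.card) → SWaux.A n d (P.card - u) u →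
  (Gen ℂ fun w : I → Fin (n + 1) → ℂ => Dbl (n + 1) d P w = ⊥) →
  Gen ℂ fun x : (I → Fin (n + 1) → ℂ) × (Y → Fin n → ℂ) =>
    finrank ℂ (DbS n (d + 1) P x.1 R x.2) ≤
      NN (n + 1) (d + 1) - ((n + 1) * P.card + Fintype.card I + (n * R.card + Fintype.card Y))

end Pool.Agent.WarD
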