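import Pool.Agent.WarD.Stmts
import Pool.Agent.WarM.CubAH

/-!
# Simultaneous Waring decompositions (MP_db021c_ag), degree 4, few forms: more statements   (helper27)
-/

set_option autoImplicit false

open Module MvPolynomial
open Pool.Agent.War Pool.Agent.WarS

namespace Pool.Agent.WarD

/-- QZ. Quadrics which are double at the `p = |P|` points of `P` and simple at the others; general points.
Proof. `p = 0`: `S_SG` with `GG.zero` (`2 * NN n 2 = (n+2)(n+1)`). `p ≥ 1`: take the first `min p (n+1)` points of `P` at `0`,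
`e_1`, .., the quadrics double there are the quadratic forms in the other `n + 1 - p` variables, a space of dimension
`(n+2-p)(n+1-p)/2` (`S_QD` of War5: the kernel of `p` general double points has dimension at most that, `0` for
`p ≥ n + 1`); each of the `|I| - p` other general points lowers the dimension by one until it is zero (`red` with
`ev`, as in `SG_both` in WarS/SG.lean); then `PK.gen_bot`. -/
def S_QZ : Prop := ∀ (n : ℕ) (I : Type) [Fintype I] (P : Finset I), 1 ≤ n →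
  (n + 2 - P.card) * (n + 1 - P.card) ≤ 2 * (Fintype.card I - P.card) →
  Gen ℂ fun w : I → Fin n → ℂ => Dbl n 2 P w = ⊥

/-- Q4. Quartics. Induction on `n` (write `m = n + 1`). `n = 1`: `3 p ≤ 5`, `GG 1 4 1` (or `GG_one` in War/WAH.lean).
`n → m`: `(m+2) p ≤ NN m 4`. `U = min p (NN n 4 / (m+1))` points go to the hyperplane, `Q = p - U`. By `SWaux.A_step`
(`l = 0`, degree 4) one needs `GG n 4 U` (induction: `(n+2) U ≤ NN n 4`) and `SWaux.A n 3 Q U`.
`Q = 0`: `SWaux.A_zero`, `U ≤ NN n 3` (`4 NN n 4 = (n+4) NN n 3`). `Q ≥ 1`: then `(m+1) U + m ≥ NN n 4` and `(m+2) Q ≤ NN m 4 - (m+2) U`;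
`SWaux.A n 3 Q U` by `x_AK` (War5/AK.lean: `GG m 3 Q`, `KD m 2 Q k`, `k + U + (m+1) Q ≤ NN m 3`), `k = 0` if `Q ≥ m + 1` and
`(m+2-Q)(m+1-Q)/2` otherwise (`S_QD`).
`GG m 3 Q`: `WarM.CUBIC`, `(m+1)(Q+1) ≤ NN m 3` (`m ≥ 4` by the inequality below and `U ≥ m + 1 - slack`; `m = 2, 3` numerals: `Q ≤ 2`,
`Q ≤ 4`). `Q ≤ m`: `k + (m+1) Q ≤ m² + m + 1`, `U ≤ (m+3)(m+2)m/24`: sum `≤ (m+3)(m+2)(m+1)/6`, since
`(m+3)(m+2)(3m+4) ≥ 24(m²+m+1)` (`m ≥ 2`). `Q ≥ m + 1`: `U + (m+1) Q ≤ (m+3)(4m²+9m+4)/24 + m ≤ (m+3)(m+2)(m+1)/6`, as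
`(m+3)(3m+4) ≥ 24 m`. -/
def S_Q4 : Prop := ∀ n p : ℕ, 1 ≤ n → (n + 2) * p ≤ NN n 4 → GG n 4 p

end Pool.Agent.WarD
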